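import Pool.Agent.Helper919_LB.Defs
import Mathlib

/-!
# The Lipschitz Baumgartner axiom for the Cantor space

`BALip` is the axiom as usually stated, and `balip_iff` says that it is equivalent to the form
`BALipEnum` with enumerations.
-/

set_option autoImplicit false

namespace Pool.Agent.Helper919LB

open Set Cardinal Pool.Agent.W684.FM

/-- `A ⊆ 2^ω` is `ℵ₁`-dense: `|A ∩ U| = ℵ₁` for every nonempty open set `U`. -/
def AlephOneDense (A : Set (ℕ → Bool)) : Prop :=
  ∀ U : Set (ℕ → Bool), IsOpen U → U.Nonempty → #(A ∩ U : Set (ℕ → Bool)) = ℵ₁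

/-- `f : 2^ω → 2^ω` is Lipschitz with constant `1`: if `x` and `y` agree below `k` then so do `f x`
and `f y`. -/
def IsLip (f : (ℕ → Bool) → ℕ → Bool) : Prop :=
  ∀ (k : ℕ) (x y : ℕ → Bool), (∀ i < k, x i = y i) → ∀ i < k, f x i = f y i

/-- The axiom `BA_Lip(2^ω)`: for all `ℵ₁`-dense `A, B ⊆ 2^ω` there is a Lipschitz function
`f : 2^ω → 2^ω` whose restriction to `A` is an injection of `A` into `B`. -/
def BALip : Prop :=
  ∀ A B : Set (ℕ → Bool), AlephOneDense A → AlephOneDense B →
    ∃ f : (ℕ → Bool) → ℕ → Bool, IsLip f ∧ InjOn f A ∧ MapsTo f A B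

/-- the basic open set given by the finite sequence `s` -/
def cyl (s : List Bool) : Set (ℕ → Bool) := {x | ∀ i < s.length, x i = s.getD i false}

theorem isOpen_cyl (s : List Bool) : IsOpen (cyl s) := by
  have : cyl s = ⋂ i ∈ Finset.range s.length, {x : ℕ → Bool | x i = s.getD i false} := by
    ext x
    simp [cyl]
  rw [this]
  apply isOpen_biInter_finset
  intro i _
  have hc : Continuous fun x : ℕ → Bool => x i := continuous_apply i
  exact (isOpen_discrete ({s.getD i false} : Set Bool)).preimage hc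

theorem nonempty_cyl (s : List Bool) : (cyl s).Nonempty := ⟨fun i => s.getD i false, fun _ _ => rfl⟩

/-- an initial segment of a point -/
def ini (x : ℕ → Bool) (k : ℕ) : List Bool := (List.range k).map x

theorem length_ini (x : ℕ → Bool) (k : ℕ) : (ini x k).length = k := by simp [ini]

theorem getD_ini (x : ℕ → Bool) {k i : ℕ} (h : i < k) : (ini x k).getD i false = x i := by
  simp [ini, List.getD, h]

theorem mem_cyl_ini {x y : ℕ → Bool} {k : ℕ} : y ∈ cyl (ini x k) ↔ ∀ i < k, y i = x i := by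
  unfold cyl
  rw [mem_setOf_eq, length_ini]
  refine forall₂_congr fun i hi => ?_
  rw [getD_ini x hi]

/-- every nonempty open set includes a basic open set -/
theorem exists_cyl {U : Set (ℕ → Bool)} (hU : IsOpen U) (hne : U.Nonempty) :
    ∃ s, cyl s ⊆ U := by
  obtain ⟨x, hx⟩ := hne
  obtain ⟨I, u, hu, hIU⟩ := isOpen_pi_iff.1 hU x hx
  obtain ⟨N, hN⟩ := I.bddAbove
  refine ⟨ini x (N + 1), fun y hy => hIU ?_⟩
  intro i hi
  rw [mem_cyl_ini.1 hy i (Nat.lt_succ_of_le (hN hi))]
  exact (hu i hi).2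

theorem countable_Iic_om1' (c : Om1) : (Set.Iic c).Countable := by
  have h3 := Cardinal.mk_Iio_ord_toType c
  have h4 : (Set.Iio c).Countable := by
    rw [← Cardinal.le_aleph0_iff_set_countable]
    have : #(Set.Iio c) < Order.succ ℵ₀ := by
      rw [Cardinal.succ_aleph0]
      simpa using h3
    exact Order.lt_succ_iff.1 this
  have : Set.Iic c = insert c (Set.Iio c) := by
    ext x
    simp only [Set.mem_Iic, Set.mem_insert_iff, Set.mem_Iio]
    exact le_iff_eq_or_lt
  rw [this]
  exact h4.insert c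

theorem not_countable_iff {A : Set (ℕ → Bool)} : ¬ A.Countable ↔ ℵ₁ ≤ #A := by
  rw [← Cardinal.succ_aleph0, Order.succ_le_iff, ← not_le, Cardinal.le_aleph0_iff_set_countable]

theorem not_countable_univ_om1 : ¬ (Set.univ : Set Om1).Countable := by
  intro h
  rw [← Cardinal.le_aleph0_iff_set_countable, Cardinal.mk_univ, Cardinal.mk_ord_toType] at h
  exact absurd h (not_le.2 Cardinal.aleph0_lt_aleph_one)

/-- unbounded sets of indices are uncountable -/
theorem not_countable_of_unb {S : Set Om1} (h : ∀ c, ∃ a ∈ S, c < a) : ¬ S.Countable := by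
  intro hc
  apply not_countable_univ_om1
  have : (⋃ a ∈ S, Set.Iic a).Countable := hc.biUnion fun a _ => countable_Iic_om1' a
  refine this.mono fun c _ => ?_
  obtain ⟨a, ha, hca⟩ := h c
  exact mem_biUnion ha hca.le

open Classical in
/-- the point given by a set of natural numbers -/
noncomputable def pt (x : ℕ → Prop) : ℕ → Bool := fun i => decide (x i)

theorem pt_eq_iff {x y : ℕ → Prop} {i : ℕ} : pt x i = pt y i ↔ (x i → y i) ∧ (y i → x i) := by
  unfold pt
  rw [decide_eq_decide]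
  exact ⟨fun h => ⟨h.1, h.2⟩, fun h => ⟨h.1, h.2⟩⟩

theorem starts_iff {x : ℕ → Prop} {s : List Bool} : Starts s x ↔ pt x ∈ cyl s := by
  refine forall₂_congr fun i _ => ?_
  unfold pt
  cases h : s.getD i false with
  | true => simp [h]
  | false => simp [h]

theorem agreeTo_iff {k : ℕ} {x y : ℕ → Prop} : AgreeTo k x y ↔ ∀ i < k, pt x i = pt y i :=
  forall₂_congr fun _ _ => pt_eq_iff.symm

/-- the set enumerated by a sequence -/
theorem alephOneDense_range {e : Om1 → ℕ → Prop} (he : DenseEnum e) :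
    AlephOneDense (range fun a => pt (e a)) := by
  have hinj : Function.Injective fun a => pt (e a) := by
    intro a b hab
    by_contra hne
    obtain ⟨i, hi⟩ := he.1 a b hne
    exact hi (pt_eq_iff.1 (congrFun hab i))
  intro U hU hne
  obtain ⟨s, hs⟩ := exists_cyl hU hne
  apply le_antisymm
  · refine (mk_le_mk_of_subset inter_subset_left).trans ?_
    refine mk_range_le.trans ?_
    rw [Cardinal.mk_ord_toType]
  · rw [← not_countable_iff]
    intro hc
    refine not_countable_of_unb (S := {a | Starts s (e a)}) (fun c => ?_) ?_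
    · obtain ⟨a, h1, h2⟩ := he.2 s c
      exact ⟨a, h2, h1⟩
    · refine Set.countable_of_injective_of_countable_image (f := fun a => pt (e a))
        hinj.injOn (hc.mono ?_)
      rintro _ ⟨a, ha, rfl⟩
      exact ⟨⟨a, rfl⟩, hs (starts_iff.1 ha)⟩

theorem balipEnum_of (h : BALip) : BALipEnum := by
  intro e e' he he'
  obtain ⟨f, hf, hinj, hmaps⟩ := h _ _ (alephOneDense_range he) (alephOneDense_range he')
  refine ⟨fun a b => pt (e' b) = f (pt (e a)), ⟨fun a => ?_, fun a b b' h1 h2 => ?_⟩,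
    fun a a' b h1 h2 => ?_, fun a a' b b' k h1 h2 h3 => ?_⟩
  · obtain ⟨b, hb⟩ := hmaps ⟨a, rfl⟩
    exact ⟨b, hb⟩
  · by_contra hne
    obtain ⟨i, hi⟩ := he'.1 b b' hne
    exact hi (pt_eq_iff.1 (congrFun (h1.trans h2.symm) i))
  · by_contra hne
    obtain ⟨i, hi⟩ := he.1 a a' hne
    have h3 := hinj ⟨a, rfl⟩ ⟨a', rfl⟩ (h1.symm.trans h2)
    exact hi (pt_eq_iff.1 (congrFun h3 i))
  · rw [agreeTo_iff] at h3 ⊢
    rw [h1, h2]
    exact hf k _ _ h3

/-- an enumeration of an `ℵ₁`-dense set -/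
theorem exists_enum {A : Set (ℕ → Bool)} (hA : AlephOneDense A) :
    ∃ e : Om1 → ℕ → Prop, DenseEnum e ∧ (∀ a, pt (e a) ∈ A) ∧ ∀ x ∈ A, ∃ a, pt (e a) = x := by
  have h1 : #A = #Om1 := by
    have := hA univ isOpen_univ ⟨fun _ => false, trivial⟩
    rw [inter_univ] at this
    rw [this, Cardinal.mk_ord_toType]
  obtain ⟨φ⟩ := Cardinal.eq.1 h1
  let e : Om1 → ℕ → Prop := fun a i => (φ.symm a).1 i = true
  have hpt : ∀ a, pt (e a) = (φ.symm a).1 := by
    intro a
    funext i
    simp [pt, e]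
  have hsurj : ∀ x ∈ A, ∃ a, pt (e a) = x := fun x hx => ⟨φ ⟨x, hx⟩, by rw [hpt]; simp⟩
  refine ⟨e, ⟨fun a b hab => ?_, fun s c => ?_⟩, fun a => by rw [hpt]; exact (φ.symm a).2, hsurj⟩
  · by_contra hcon
    push Not at hcon
    apply hab
    apply φ.symm.injective
    apply Subtype.ext
    rw [← hpt, ← hpt]
    funext i
    exact pt_eq_iff.2 (hcon i)
  · by_contra hcon
    push Not at hcon
    have h2 : (A ∩ cyl s) ⊆ (fun a => pt (e a)) '' Set.Iic c := by
      rintro x ⟨hx, hxs⟩
      obtain ⟨a, rfl⟩ := hsurj x hx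
      refine ⟨a, ?_, rfl⟩
      by_contra hac
      exact hcon a (not_le.1 hac) (starts_iff.2 hxs)
    have h3 : (A ∩ cyl s).Countable := ((countable_Iic_om1' c).image _).mono h2
    exact not_countable_iff.2 (hA _ (isOpen_cyl s) (nonempty_cyl s)).ge h3

theorem balip_of_enum (h : BALipEnum) : BALip := by
  classical
  intro A B hA hB
  obtain ⟨e, he, heA, heA'⟩ := exists_enum hA
  obtain ⟨e', he', heB, _⟩ := exists_enum hB
  obtain ⟨g, ⟨hg1, _⟩, hg3, hg4⟩ := h e e' he he'
  choose G hG using hg1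
  have hdense : ∀ (x : ℕ → Bool) (k : ℕ), ∃ a, ∀ i < k, pt (e a) i = x i := by
    intro x k
    obtain ⟨a, _, ha⟩ := he.2 (ini x k) (Classical.choice (by
      by_contra hcon
      rw [not_nonempty_iff] at hcon
      exact not_countable_univ_om1 (Set.countable_univ_iff.2 inferInstance)))
    exact ⟨a, mem_cyl_ini.1 (starts_iff.1 ha)⟩
  choose a ha using hdense
  let f : (ℕ → Bool) → ℕ → Bool := fun x k => pt (e' (G (a x (k + 1)))) k
  have key : ∀ (x : ℕ → Bool) (k : ℕ) (b : Om1), (∀ i < k + 1, pt (e b) i = x i) →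
      f x k = pt (e' (G b)) k := by
    intro x k b hb
    have h1 := hg4 (a x (k + 1)) b (G (a x (k + 1))) (G b) (k + 1) (hG _) (hG _) (by
      rw [agreeTo_iff]
      intro i hi
      rw [ha x (k + 1) i hi, hb i hi])
    rw [agreeTo_iff] at h1
    exact h1 k (Nat.lt_succ_self k)
  have hval : ∀ b, f (pt (e b)) = pt (e' (G b)) := fun b => by
    funext k
    exact key _ k b fun _ _ => rfl
  refine ⟨f, ?_, ?_, ?_⟩
  · intro k x y hxy i hi
    rw [key y i (a x (i + 1))]
    intro j hj
    rw [ha x (i + 1) j hj]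
    exact hxy j (by omega)
  · intro x hx y hy hxy
    obtain ⟨b, rfl⟩ := heA' x hx
    obtain ⟨b', rfl⟩ := heA' y hy
    rw [hval, hval] at hxy
    have h1 : G b = G b' := by
      by_contra hne
      obtain ⟨i, hi⟩ := he'.1 _ _ hne
      exact hi (pt_eq_iff.1 (congrFun hxy i))
    have h2 := hG b
    rw [h1] at h2
    rw [hg3 b b' _ h2 (hG b')]
  · intro x hx
    obtain ⟨b, rfl⟩ := heA' x hx
    rw [hval]
    exact heB _

/-- The two forms of the Lipschitz Baumgartner axiom are equivalent. -/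
theorem balip_iff : BALipEnum ↔ BALip := ⟨balip_of_enum, balipEnum_of⟩

end Pool.Agent.Helper919LB
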