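import Pool.Agent.W684.FM.Stages
import Pool.Agent.W684.FM.Defs

/-!
# An iteration whose first coordinate adds Cohen reals, and a strong chain condition

`c₀` is the coordinate whose poset consists of the finite partial functions from
`(ω₁ × {0, 1}) × ω` to `{0, 1}`. A place is an element `(a, k)` of `ω₁ × {0, 1}`, and `k` is its
kind. `SCC S` is the following strengthening of the countable chain condition: in every family,
indexed by `ω₁`, of pairs (valid condition, finite tuple of places), with pairwise disjoint tuples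
of the same kind, there are two pairs whose conditions have a common extension which forces, for
some `N`, that the Cohen reals at corresponding places of kind `1` differ for the first time at
`N`, and that the ones at corresponding places of kind `0` agree up to and including `N`.
-/

set_option autoImplicit false

namespace Pool.Agent.Helper919LB

open Classical Pool.Agent.W684.FM

/-- the places of the Cohen reals -/
abbrev Pl : Type := Om1 × Bool

/-- the underlying set of the posets of the iteration -/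
def XX : Type := Pl × ℕ × Bool

/-- the element of `XX` which says that the `n`-th digit of the `a`-th Cohen real is `v` -/
def bit (a : Pl) (n : ℕ) (v : Bool) : XX := (a, n, v)

theorem bit_inj {a b : Pl} {n m : ℕ} {v w : Bool} : bit a n v = bit b m w ↔
    a = b ∧ n = m ∧ v = w := by
  unfold bit
  constructor
  · intro h
    have h' : (a, n, v) = (b, m, w) := h
    exact ⟨congrArg Prod.fst h', congrArg (fun x => x.2.1) h', congrArg (fun x => x.2.2) h'⟩
  · rintro ⟨rfl, rfl, rfl⟩
    rfl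

theorem exists_bit (x : XX) : ∃ a n v, x = bit a n v := ⟨x.1, x.2.1, x.2.2, rfl⟩

variable {W : Type} [LinearOrder W] [OrderBot W]

/-- no contradictory bits -/
def Consis (F : Finset XX) : Prop := ∀ a n, ¬ (bit a n false ∈ F ∧ bit a n true ∈ F)

variable (W) in
/-- the Cohen coordinate -/
noncomputable def c0 : Code XX W :=
  (Code.exists_code (⊥ : W) (fun F : Finset XX => {s : Cond XX W | s = ∅ ∧ Consis F})
    (fun _ => (Set.countable_singleton ∅).mono (fun _ hs => hs.1))).choose

theorem c0_st : (c0 W).st = ⊥ :=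
  (Code.exists_code (⊥ : W) (fun F : Finset XX => {s : Cond XX W | s = ∅ ∧ Consis F})
    (fun _ => (Set.countable_singleton ∅).mono (fun _ hs => hs.1))).choose_spec.1

theorem c0_nm : (c0 W).nm = fun F : Finset XX => {s : Cond XX W | s = ∅ ∧ Consis F} :=
  (Code.exists_code (⊥ : W) (fun F : Finset XX => {s : Cond XX W | s = ∅ ∧ Consis F})
    (fun _ => (Set.countable_singleton ∅).mono (fun _ hs => hs.1))).choose_spec.2

theorem mem_c0_nm {F : Finset XX} {s : Cond XX W} : s ∈ (c0 W).nm F ↔ s = ∅ ∧ Consis F := by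
  rw [c0_nm]
  rfl

theorem proper_c0 : Proper (c0 W) := by
  intro F s hs a ha
  rw [mem_c0_nm] at hs
  rw [hs.1] at ha
  exact absurd ha (Finset.notMem_empty a)

theorem valid_consis {S : Set (Code XX W)} {r : Cond XX W} (hr : Valid S r) :
    Consis (fib r (c0 W)) := by
  intro a n ⟨h1, h2⟩
  rw [mem_fib] at h1
  obtain ⟨_, s, hs, _⟩ := hr _ h1
  rw [mem_c0_nm] at hs
  exact hs.2 a n ⟨mem_fib.2 h1, h2⟩

theorem not_both {S : Set (Code XX W)} {r : Cond XX W} (hr : Valid S r) {a : Pl} {n : ℕ}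
    (h1 : (c0 W, bit a n false) ∈ r) (h2 : (c0 W, bit a n true) ∈ r) : False :=
  valid_consis hr a n ⟨mem_fib.2 h1, mem_fib.2 h2⟩

theorem bit_unique {S : Set (Code XX W)} {r : Cond XX W} (hr : Valid S r) {a : Pl} {n : ℕ}
    {v w : Bool} (h1 : (c0 W, bit a n v) ∈ r) (h2 : (c0 W, bit a n w) ∈ r) : v = w := by
  cases v <;> cases w
  · rfl
  · exact (not_both hr h1 h2).elim
  · exact (not_both hr h2 h1).elim
  · rfl

/-- the condition `r` decides that the `a`-th and the `b`-th Cohen real agree below `N` -/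
def AgrC (r : Cond XX W) (N : ℕ) (a b : Pl) : Prop :=
  ∀ i < N, ∃ v : Bool, (c0 W, bit a i v) ∈ r ∧ (c0 W, bit b i v) ∈ r

/-- the condition `r` decides that the Cohen reals at corresponding places of the tuples `t` and
`t'` agree below `N`, and that they differ at `N` if the place is of kind `true`, and agree at `N`
if it is of kind `false` -/
def GoodAt (r : Cond XX W) (N : ℕ) {J : Type} (t t' : J → Pl) : Prop :=
  ∀ j, AgrC r N (t j) (t' j) ∧
    ∃ v : Bool, (c0 W, bit (t j) N v) ∈ r ∧ (c0 W, bit (t' j) N (xor v (t j).2)) ∈ r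

/-- the condition `r` decides that the pair of tuples is good -/
def Good (r : Cond XX W) {J : Type} (t t' : J → Pl) : Prop := ∃ N, GoodAt r N t t'

theorem AgrC.mono {r r' : Cond XX W} (h : r ⊆ r') {N : ℕ} {a b : Pl} (hr : AgrC r N a b) :
    AgrC r' N a b := fun i hi => by
  obtain ⟨v, hv, hv'⟩ := hr i hi
  exact ⟨v, h hv, h hv'⟩

theorem GoodAt.mono {r r' : Cond XX W} (h : r ⊆ r') {N : ℕ} {J : Type} {t t' : J → Pl}
    (hr : GoodAt r N t t') : GoodAt r' N t t' := fun j => by
  obtain ⟨h1, v, hv, hv'⟩ := hr j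
  exact ⟨h1.mono h, v, h hv, h hv'⟩

theorem Good.mono {r r' : Cond XX W} (h : r ⊆ r') {J : Type} {t t' : J → Pl}
    (hr : Good r t t') : Good r' t t' := by
  obtain ⟨N, hN⟩ := hr
  exact ⟨N, hN.mono h⟩

theorem AgrC.restr {T : Set (Code XX W)} (hT : c0 W ∈ T) {r : Cond XX W} {N : ℕ} {a b : Pl}
    (hr : AgrC r N a b) : AgrC (restr T r) N a b := fun i hi => by
  obtain ⟨v, hv, hv'⟩ := hr i hi
  exact ⟨v, mem_restr.2 ⟨hv, hT⟩, mem_restr.2 ⟨hv', hT⟩⟩

theorem Good.restr {T : Set (Code XX W)} (hT : c0 W ∈ T) {r : Cond XX W} {J : Type}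
    {t t' : J → Pl} (hr : Good r t t') : Good (restr T r) t t' := by
  obtain ⟨N, hN⟩ := hr
  refine ⟨N, fun j => ?_⟩
  obtain ⟨h1, v, hv, hv'⟩ := hN j
  exact ⟨h1.restr hT, v, mem_restr.2 ⟨hv, hT⟩, mem_restr.2 ⟨hv', hT⟩⟩

/-- good pairs of tuples, at corresponding subtuples -/
theorem Good.comp {r : Cond XX W} {J J' : Type} {t t' : J → Pl} (f : J' → J)
    (hr : Good r t t') : Good r (fun j => t (f j)) (fun j => t' (f j)) := by
  obtain ⟨N, hN⟩ := hr
  exact ⟨N, fun j => hN (f j)⟩

/-- symmetry -/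
theorem Good.symm {r : Cond XX W} {J : Type} {t t' : J → Pl} (hk : ∀ j, (t j).2 = (t' j).2)
    (hr : Good r t t') : Good r t' t := by
  obtain ⟨N, hN⟩ := hr
  refine ⟨N, fun j => ?_⟩
  obtain ⟨h1, v, hv, hv'⟩ := hN j
  refine ⟨fun i hi => ?_, xor v (t j).2, hv', ?_⟩
  · obtain ⟨w, hw, hw'⟩ := h1 i hi
    exact ⟨w, hw', hw⟩
  · rw [← hk j]
    have : xor (xor v (t j).2) (t j).2 = v := by cases v <;> cases (t j).2 <;> rfl
    rw [this]
    exact hv

/-- the strong chain condition -/
def SCC (S : Set (Code XX W)) : Prop :=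
  ∀ (J : Type) [Finite J] (s : J → Bool) (p : Om1 → Cond XX W) (t : Om1 → J → Pl),
    (∀ ξ, Valid S (p ξ)) → (∀ ξ j, (t ξ j).2 = s j) →
      (∀ ξ η, ξ ≠ η → ∀ i j, t ξ i ≠ t η j) →
        ∃ ξ η, ξ ≠ η ∧ ∃ r, Valid S r ∧ p ξ ⊆ r ∧ p η ⊆ r ∧ Good r (t ξ) (t η)

theorem not_countable_om1 : ¬ (Set.univ : Set Om1).Countable := by
  intro h
  rw [← Cardinal.le_aleph0_iff_set_countable, Cardinal.mk_univ, Cardinal.mk_ord_toType] at h
  exact absurd h (not_le.2 Cardinal.aleph0_lt_aleph_one)

theorem exists_emb {ι : Type} {A : Set ι} (hA : ¬ A.Countable) : Nonempty (Om1 ↪ A) := by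
  rw [← Cardinal.le_def, Cardinal.mk_ord_toType]
  rw [← Cardinal.succ_aleph0, Order.succ_le_iff]
  rw [← not_le, Cardinal.le_aleph0_iff_set_countable]
  exact hA

/-- the strong chain condition for families with an uncountable set of indices -/
theorem SCC.set {S : Set (Code XX W)} (h : SCC S) {ι : Type} {A : Set ι} (hA : ¬ A.Countable)
    (J : Type) [Finite J] (s : J → Bool) (p : ι → Cond XX W) (t : ι → J → Pl)
    (h1 : ∀ ξ ∈ A, Valid S (p ξ)) (h2 : ∀ ξ ∈ A, ∀ j, (t ξ j).2 = s j)
    (h3 : ∀ ξ ∈ A, ∀ η ∈ A, ξ ≠ η → ∀ i j, t ξ i ≠ t η j) :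
    ∃ ξ ∈ A, ∃ η ∈ A, ξ ≠ η ∧ ∃ r, Valid S r ∧ p ξ ⊆ r ∧ p η ⊆ r ∧ Good r (t ξ) (t η) := by
  obtain ⟨e⟩ := exists_emb hA
  obtain ⟨ξ, η, hne, r, hr⟩ := h J s (fun ξ => p (e ξ)) (fun ξ => t (e ξ))
    (fun ξ => h1 _ (e ξ).2) (fun ξ => h2 _ (e ξ).2)
    (fun ξ η hne => h3 _ (e ξ).2 _ (e η).2 fun h => hne (e.injective (Subtype.ext h)))
  exact ⟨e ξ, (e ξ).2, e η, (e η).2, fun h => hne (e.injective (Subtype.ext h)), r, hr⟩

theorem SCC.ccc {S : Set (Code XX W)} (h : SCC S) : CCCs S := by
  intro A hA hanti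
  by_contra hunc
  obtain ⟨ξ, hξ, η, hη, hne, r, hr, h1, h2, _⟩ := h.set hunc Empty (fun j => j.elim) id
    (fun _ j => j.elim) hA (fun _ _ j => j.elim) (fun _ _ _ _ _ i => i.elim)
  exact hanti ξ hξ η hη hne ⟨r, hr, h1, h2⟩

theorem SCC_of_parts {S : Set (Code XX W)} (hS : ∀ c ∈ S, Proper c)
    (hT : ∀ r : Finset (Code XX W), (∀ c ∈ r, c ∈ S) →
      ∃ T, Initial T S ∧ (∀ c ∈ r, c ∈ T) ∧ SCC T) : SCC S := by
  intro J _ s p t hp hs hd
  obtain ⟨A, r, -, hunc, hr, hdd⟩ := Helper126.delta_system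
    (fun ξ : Om1 => (p ξ).image Prod.fst) Set.univ not_countable_om1
  obtain ⟨ξ0, hξ0⟩ : A.Nonempty := by
    rw [Set.nonempty_iff_ne_empty]
    rintro rfl
    exact hunc Set.countable_empty
  have hrS : ∀ c ∈ r, c ∈ S := by
    intro c hc
    obtain ⟨a, ha, rfl⟩ := Finset.mem_image.1 (hr ξ0 hξ0 hc)
    exact (hp ξ0 a ha).1
  obtain ⟨T, hTS, hrT, hccc⟩ := hT r hrS
  obtain ⟨ξ, hξ, η, hη, hne, q, hq, h1, h2, h3⟩ := hccc.set hunc J s
    (fun ξ => restr T (p ξ)) t (fun ξ _ => valid_restr hS hTS (hp ξ)) (fun ξ _ => hs ξ)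
    (fun ξ _ η _ => hd ξ η)
  refine ⟨ξ, η, hne, q ∪ p ξ ∪ p η, ?_,
    Finset.subset_union_right.trans Finset.subset_union_left, Finset.subset_union_right,
    h3.mono (Finset.subset_union_left.trans Finset.subset_union_left)⟩
  refine amalg hTS.1 (hp ξ) (hp η) hq h1 h2 ?_
  intro a ha b hb hab
  apply hrT
  apply hdd ξ hξ η hη hne a.1 (Finset.mem_image_of_mem _ ha)
  rw [hab]
  exact Finset.mem_image_of_mem _ hb

/-- the candidates for the set of the coordinates at stage `α` -/
def Cand' (α : W) (S₀ : Set (Code XX W)) : Set (Set (Code XX W)) :=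
  {M | (∀ c ∈ M, c.st = α ∧ Proper c) ∧ SCC (S₀ ∪ M)}

theorem exists_max' (α : W) (S₀ : Set (Code XX W)) (h₀ : ∀ c ∈ S₀, c.st < α ∧ Proper c)
    (hc : SCC S₀) : ∃ M, Maximal (fun M => M ∈ Cand' α S₀) M := by
  apply zorn_subset
  intro 𝒞 h𝒞 hchain
  rcases 𝒞.eq_empty_or_nonempty with he | hne
  · subst he
    refine ⟨∅, ⟨by simp, by simpa using hc⟩, by simp⟩
  · refine ⟨⋃₀ 𝒞, ⟨?_, ?_⟩, fun s hs => Set.subset_sUnion_of_mem hs⟩
    · rintro c ⟨M, hM, hcM⟩
      exact (h𝒞 hM).1 c hcM
    · apply SCC_of_parts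
      · rintro c (h | ⟨M, hM, hcM⟩)
        · exact (h₀ c h).2
        · exact ((h𝒞 hM).1 c hcM).2
      · intro r hr
        have : ∃ M ∈ 𝒞, ∀ c ∈ r, c ∈ S₀ ∪ M := by
          induction r using Finset.induction_on with
          | empty =>
            obtain ⟨M, hM⟩ := hne
            exact ⟨M, hM, by simp⟩
          | insert c r _ ih =>
            obtain ⟨M, hM, h1⟩ := ih fun d hd => hr d (Finset.mem_insert_of_mem hd)
            rcases hr c (Finset.mem_insert_self _ _) with h2 | ⟨M', hM', h2⟩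
            · refine ⟨M, hM, fun d hd => ?_⟩
              rcases Finset.mem_insert.1 hd with h3 | h3
              · rw [h3]
                exact Or.inl h2
              · exact h1 d h3
            · rcases hchain.total hM hM' with h4 | h4
              · refine ⟨M', hM', fun d hd => ?_⟩
                rcases Finset.mem_insert.1 hd with h3 | h3
                · rw [h3]
                  exact Or.inr h2
                · exact (h1 d h3).imp id fun h => h4 h
              · refine ⟨M, hM, fun d hd => ?_⟩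
                rcases Finset.mem_insert.1 hd with h3 | h3
                · rw [h3]
                  exact Or.inr (h4 h2)
                · exact h1 d h3
        obtain ⟨M, hM, h1⟩ := this
        refine ⟨S₀ ∪ M, ⟨Set.union_subset_union_right _ (Set.subset_sUnion_of_mem hM), ?_⟩,
          h1, (h𝒞 hM).2⟩
        rintro c hcS c' (h2 | ⟨M', hM', h2⟩) hlt
        · exact Or.inl h2
        · exfalso
          have h3 : c'.st = α := ((h𝒞 hM').1 c' h2).1
          have h4 : c.st ≤ α := by
            rcases hcS with h | h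
            · exact (h₀ c h).1.le
            · exact ((h𝒞 hM).1 c h).1.le
          rw [h3] at hlt
          exact absurd h4 (not_le.2 hlt)

end Pool.Agent.Helper919LB
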