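import Pool.Agent.Helper919_LB.Base

/-!
# The strong chain condition for the Cohen coordinate
-/

set_option autoImplicit false

namespace Pool.Agent.Helper919LB

open Classical Pool.Agent.W684.FM

variable {W : Type} [LinearOrder W] [OrderBot W]

/-- the bits of a condition: the elements of `XX` attached to the Cohen coordinate -/
theorem valid_c0_iff {r : Cond XX W} (h1 : ∀ a ∈ r, a.1 = c0 W) (h2 : Consis (fib r (c0 W))) :
    Valid {c0 W} r := by
  intro a ha
  refine ⟨h1 a ha, ∅, ?_, Finset.empty_subset _⟩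
  rw [h1 a ha, mem_c0_nm]
  exact ⟨rfl, h2⟩

/-- the condition which consists of the bits in `B` -/
noncomputable def ofBits (W : Type) [LinearOrder W] [OrderBot W] (B : Finset XX) : Cond XX W :=
  B.image fun x => (c0 W, x)

theorem mem_ofBits {B : Finset XX} {c : Code XX W} {x : XX} :
    (c, x) ∈ ofBits W B ↔ c = c0 W ∧ x ∈ B := by
  simp only [ofBits, Finset.mem_image, Prod.mk.injEq]
  constructor
  · rintro ⟨y, hy, rfl, rfl⟩
    exact ⟨rfl, hy⟩
  · rintro ⟨rfl, h⟩
    exact ⟨x, h, rfl, rfl⟩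

/-- consistent bits may be added to a valid condition -/
theorem valid_add {S : Set (Code XX W)} (hc : c0 W ∈ S) {r : Cond XX W} (hr : Valid S r)
    {B : Finset XX} (hB : Consis (fib r (c0 W) ∪ B)) : Valid S (r ∪ ofBits W B) := by
  have h0 : fib (r ∪ ofBits W B) (c0 W) = fib r (c0 W) ∪ B := by
    ext x
    rw [mem_fib, Finset.mem_union, Finset.mem_union, mem_fib, mem_ofBits]
    simp
  rintro ⟨c, x⟩ ha
  by_cases h : c = c0 W
  · subst h
    refine ⟨hc, ∅, ?_, Finset.empty_subset _⟩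
    show ∅ ∈ (c0 W).nm (fib (r ∪ ofBits W B) (c0 W))
    rw [mem_c0_nm, h0]
    exact ⟨rfl, hB⟩
  · have ha' : (c, x) ∈ r := by
      rcases Finset.mem_union.1 ha with h1 | h1
      · exact h1
      · exact absurd (mem_ofBits.1 h1).1 h
    obtain ⟨h1, s, hs, hsr⟩ := hr _ ha'
    refine ⟨h1, s, ?_, hsr.trans Finset.subset_union_left⟩
    have h2 : fib (r ∪ ofBits W B) c = fib r c := fib_congr fun y => by
      rw [Finset.mem_union, mem_ofBits]
      simp [h]
    show s ∈ c.nm (fib (r ∪ ofBits W B) c)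
    rw [h2]
    exact hs

/-- the places of a condition -/
noncomputable def places (p : Cond XX W) : Finset Pl := p.image fun a => a.2.1

/-- a bound for the digits of a condition -/
noncomputable def height (p : Cond XX W) : ℕ := p.sup fun a => a.2.2.1 + 1

omit [LinearOrder W] [OrderBot W] in
theorem mem_places {c : Code XX W} {p : Cond XX W} {a : Pl} {n : ℕ} {v : Bool}
    (h : (c, bit a n v) ∈ p) : a ∈ places p :=
  Finset.mem_image.2 ⟨_, h, rfl⟩

omit [LinearOrder W] [OrderBot W] in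
theorem lt_height {c : Code XX W} {p : Cond XX W} {a : Pl} {n : ℕ} {v : Bool}
    (h : (c, bit a n v) ∈ p) : n < height p :=
  Nat.lt_of_succ_le (Finset.le_sup (f := fun a : Code XX W × XX => a.2.2.1 + 1) h)

/-- the condition `r` decides the digits below `L` of the Cohen reals at the places in `D` -/
def FullC (r : Cond XX W) (D : Finset Pl) (L : ℕ) : Prop :=
  ∀ a ∈ D, ∀ i < L, ∃ v : Bool, (c0 W, bit a i v) ∈ r

/-- a condition can be extended, by a given function at the digits which are not yet decided -/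
theorem exists_full {S : Set (Code XX W)} (hc : c0 W ∈ S) {r : Cond XX W} (hr : Valid S r)
    (D : Finset Pl) (L : ℕ) (f : Pl → ℕ → Bool) : ∃ r', Valid S r' ∧ r ⊆ r' ∧ FullC r' D L ∧
      (∀ a n v, (c0 W, bit a n v) ∈ r' → (c0 W, bit a n v) ∈ r ∨ v = f a n) ∧
      (∀ a n v, (c0 W, bit a n v) ∈ r' → (c0 W, bit a n v) ∉ r → a ∈ D ∧ n < L) := by
  let B : Finset XX := ((D ×ˢ Finset.range L).filter fun x =>
    ∀ v : Bool, (c0 W, bit x.1 x.2 v) ∉ r).image fun x => bit x.1 x.2 (f x.1 x.2)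
  have hmem : ∀ a n v, bit a n v ∈ B ↔ a ∈ D ∧ n < L ∧ (∀ w, (c0 W, bit a n w) ∉ r) ∧
      v = f a n := by
    intro a n v
    simp only [B, Finset.mem_image, Finset.mem_filter, Finset.mem_product, Finset.mem_range]
    constructor
    · rintro ⟨x, ⟨⟨h1, h2⟩, h3⟩, h4⟩
      obtain ⟨h5, h6, h7⟩ := bit_inj.1 h4
      rw [h5, h6] at h7
      rw [h5] at h1
      rw [h6] at h2
      rw [h5, h6] at h3
      exact ⟨h1, h2, h3, h7.symm⟩
    · rintro ⟨h1, h2, h3, rfl⟩
      exact ⟨(a, n), ⟨⟨h1, h2⟩, h3⟩, rfl⟩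
  have hcon : Consis (fib r (c0 W) ∪ B) := by
    rintro a n ⟨h1, h2⟩
    rw [Finset.mem_union, mem_fib, hmem] at h1 h2
    rcases h1 with h1 | h1
    · rcases h2 with h2 | h2
      · exact not_both hr h1 h2
      · exact h2.2.2.1 _ h1
    · rcases h2 with h2 | h2
      · exact h1.2.2.1 _ h2
      · exact absurd (h1.2.2.2.trans h2.2.2.2.symm) (by simp)
  refine ⟨r ∪ ofBits W B, valid_add hc hr hcon, Finset.subset_union_left, ?_, ?_, ?_⟩
  · intro a ha i hi
    by_cases h : ∃ v, (c0 W, bit a i v) ∈ r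
    · obtain ⟨v, hv⟩ := h
      exact ⟨v, Finset.mem_union_left _ hv⟩
    · push Not at h
      exact ⟨f a i, Finset.mem_union_right _ (mem_ofBits.2 ⟨rfl, (hmem _ _ _).2 ⟨ha, hi, h, rfl⟩⟩)⟩
  · intro a n v h
    rcases Finset.mem_union.1 h with h | h
    · exact Or.inl h
    · exact Or.inr ((hmem _ _ _).1 (mem_ofBits.1 h).2).2.2.2
  · intro a n v h h'
    rcases Finset.mem_union.1 h with h | h
    · exact absurd h h'
    · have := (hmem _ _ _).1 (mem_ofBits.1 h).2
      exact ⟨this.1, this.2.1⟩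

/-- the digits at which a condition has the value `true` -/
noncomputable def pat (p : Cond XX W) (a : Pl) : Finset ℕ :=
  (p.filter fun b => b.1 = c0 W ∧ b.2.1 = a ∧ b.2.2.2 = true).image fun b => b.2.2.1

theorem mem_pat {p : Cond XX W} {a : Pl} {n : ℕ} :
    n ∈ pat p a ↔ (c0 W, bit a n true) ∈ p := by
  simp only [pat, Finset.mem_image, Finset.mem_filter]
  constructor
  · rintro ⟨⟨c, x⟩, ⟨h1, h0, h2, h3⟩, h4⟩
    have h5 : c = c0 W := h0
    subst h5
    obtain ⟨y, m, v, rfl⟩ := exists_bit x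
    have e1 : y = a := h2
    have e2 : v = true := h3
    have e3 : m = n := h4
    subst e1 e2 e3
    exact h1
  · intro h
    exact ⟨_, ⟨h, rfl, rfl, rfl⟩, rfl⟩

theorem pat_spec {S : Set (Code XX W)} {p : Cond XX W} (hp : Valid S p) {a : Pl} {n : ℕ}
    {v : Bool} (h : (c0 W, bit a n v) ∈ p) : v = decide (n ∈ pat p a) := by
  cases v with
  | true =>
    have := mem_pat.2 h
    simp [this]
  | false =>
    have : n ∉ pat p a := fun h1 => not_both hp h (mem_pat.1 h1)
    simp [this]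

/-- full conditions with the same patterns -/
theorem full_same {S : Set (Code XX W)} {p q : Cond XX W} (hp : Valid S p) (hq : Valid S q)
    {D E : Finset Pl} {L : ℕ} (hpf : FullC p D L) (hqf : FullC q E L) {a b : Pl}
    (ha : a ∈ D) (hb : b ∈ E) (h : pat p a = pat q b) {i : ℕ} (hi : i < L) :
    ∃ v : Bool, (c0 W, bit a i v) ∈ p ∧ (c0 W, bit b i v) ∈ q := by
  obtain ⟨v, hv⟩ := hpf a ha i hi
  obtain ⟨w, hw⟩ := hqf b hb i hi
  have h1 := pat_spec hp hv
  have h2 := pat_spec hq hw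
  rw [h, ← h2] at h1
  subst h1
  exact ⟨v, hv, hw⟩

/-- uncountably many indices whose tuples avoid a given finite set of places -/
theorem avoid_root {J : Type} {t : Om1 → J → Pl}
    (hd : ∀ ξ η, ξ ≠ η → ∀ i j, t ξ i ≠ t η j) {A : Set Om1} (hA : ¬ A.Countable)
    (R : Finset Pl) : ¬ {ξ ∈ A | ∀ j, t ξ j ∉ R}.Countable := by
  intro hc
  apply hA
  have h1 : (⋃ a ∈ R, {ξ : Om1 | ∃ j, t ξ j = a}).Countable := by
    apply Set.Countable.biUnion R.countable_toSet
    intro a _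
    apply Set.Subsingleton.countable
    rintro ξ ⟨i, hi⟩ η ⟨j, hj⟩
    by_contra hne
    exact hd ξ η hne i j (hi.trans hj.symm)
  refine (hc.union h1).mono fun ξ hξ => ?_
  by_cases h : ∀ j, t ξ j ∉ R
  · exact Or.inl ⟨hξ, h⟩
  · push Not at h
    obtain ⟨j, hj⟩ := h
    exact Or.inr (Set.mem_biUnion hj ⟨j, rfl⟩)

theorem exists_two_of_not_countable {ι : Type} {A : Set ι} (hA : ¬ A.Countable) :
    ∃ x ∈ A, ∃ y ∈ A, x ≠ y := by
  by_contra hcon
  push Not at hcon
  apply hA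
  apply Set.Subsingleton.countable
  intro x hx y hy
  exact hcon x hx y hy

theorem SCC_c0 : SCC ({c0 W} : Set (Code XX W)) := by
  intro J _ s p t hp hs hd
  have : Fintype J := Fintype.ofFinite J
  let D : Om1 → Finset Pl := fun ξ => places (p ξ) ∪ Finset.univ.image (t ξ)
  have hDt : ∀ ξ j, t ξ j ∈ D ξ := fun ξ j =>
    Finset.mem_union_right _ (Finset.mem_image_of_mem _ (Finset.mem_univ j))
  let L : Om1 → ℕ := fun ξ => height (p ξ)
  choose p' hp'v hp'sub hp'full _ hp'new using fun ξ =>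
    exists_full (S := {c0 W}) rfl (hp ξ) (D ξ) (L ξ) (fun _ _ => false)
  have hplace : ∀ ξ a n v, (c0 W, bit a n v) ∈ p' ξ → a ∈ D ξ ∧ n < L ξ := by
    intro ξ a n v h
    by_cases h' : (c0 W, bit a n v) ∈ p ξ
    · exact ⟨Finset.mem_union_left _ (mem_places h'), lt_height h'⟩
    · exact hp'new ξ a n v h h'
  obtain ⟨A1, R, -, hunc1, -, hdd⟩ := Helper126.delta_system D Set.univ not_countable_om1
  have hunc2 := avoid_root hd hunc1 R
  let cd : Om1 → ℕ × (J → Finset ℕ) × (R → Finset ℕ) := fun ξ =>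
    (L ξ, fun j => pat (p' ξ) (t ξ j), fun a => pat (p' ξ) a.1)
  obtain ⟨c, hc⟩ := Helper126.uncountable_fiber cd _ hunc2
  obtain ⟨ξ, ⟨⟨hξ1, hξR⟩, hξc⟩, η, ⟨⟨hη1, hηR⟩, hηc⟩, hne⟩ := exists_two_of_not_countable hc
  have hcd : cd ξ = cd η := hξc.trans hηc.symm
  have e1 : L ξ = L η := congrArg Prod.fst hcd
  have e2 : ∀ j, pat (p' ξ) (t ξ j) = pat (p' η) (t η j) := fun j =>
    congrFun (congrArg (fun c => c.2.1) hcd) j
  have e3 : ∀ a ∈ R, pat (p' ξ) a = pat (p' η) a := fun a ha =>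
    congrFun (congrArg (fun c => c.2.2) hcd) (⟨a, ha⟩ : R)
  have hmeet : ∀ a, a ∈ D ξ → a ∈ D η → a ∈ R := hdd ξ hξ1 η hη1 hne
  -- the union of the two conditions
  have hqcon : Consis (fib (p' ξ ∪ p' η) (c0 W)) := by
    rintro a n ⟨h1, h2⟩
    rw [mem_fib, Finset.mem_union] at h1 h2
    rcases h1 with h1 | h1
    · rcases h2 with h2 | h2
      · exact not_both (hp'v ξ) h1 h2
      · have ha := hmeet a (hplace ξ _ _ _ h1).1 (hplace η _ _ _ h2).1
        have h3 := mem_pat.2 h2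
        rw [← e3 a ha] at h3
        exact not_both (hp'v ξ) h1 (mem_pat.1 h3)
    · rcases h2 with h2 | h2
      · have ha := hmeet a (hplace ξ _ _ _ h2).1 (hplace η _ _ _ h1).1
        have h3 := mem_pat.2 h2
        rw [e3 a ha] at h3
        exact not_both (hp'v η) h1 (mem_pat.1 h3)
      · exact not_both (hp'v η) h1 h2
  have hqv : Valid {c0 W} (p' ξ ∪ p' η) := by
    refine valid_c0_iff (fun a ha => ?_) hqcon
    rcases Finset.mem_union.1 ha with h | h
    · exact (hp'v ξ a h).1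
    · exact (hp'v η a h).1
  have hqL : ∀ a n v, (c0 W, bit a n v) ∈ p' ξ ∪ p' η → n < L ξ := by
    intro a n v h
    rcases Finset.mem_union.1 h with h | h
    · exact (hplace ξ _ _ _ h).2
    · rw [e1]
      exact (hplace η _ _ _ h).2
  let B : Finset XX := (Finset.univ.image fun j => bit (t ξ j) (L ξ) false) ∪
    (Finset.univ.image fun j => bit (t η j) (L ξ) (s j))
  have hB : ∀ a n v, bit a n v ∈ B ↔ n = L ξ ∧ ((v = false ∧ ∃ j, t ξ j = a) ∨
      ∃ j, t η j = a ∧ s j = v) := by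
    intro a n v
    simp only [B, Finset.mem_union, Finset.mem_image, Finset.mem_univ, true_and]
    constructor
    · rintro (⟨j, h⟩ | ⟨j, h⟩)
      · obtain ⟨h1, h2, h3⟩ := bit_inj.1 h
        exact ⟨h2.symm, Or.inl ⟨h3.symm, j, h1⟩⟩
      · obtain ⟨h1, h2, h3⟩ := bit_inj.1 h
        exact ⟨h2.symm, Or.inr ⟨j, h1, h3⟩⟩
    · rintro ⟨rfl, ⟨rfl, j, rfl⟩ | ⟨j, rfl, rfl⟩⟩
      · exact Or.inl ⟨j, rfl⟩
      · exact Or.inr ⟨j, rfl⟩
  have hcon : Consis (fib (p' ξ ∪ p' η) (c0 W) ∪ B) := by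
    rintro a n ⟨h1, h2⟩
    rw [Finset.mem_union, mem_fib, hB] at h1 h2
    rcases h1 with h1 | ⟨h1, h1'⟩
    · rcases h2 with h2 | ⟨h2, _⟩
      · exact hqcon a n ⟨mem_fib.2 h1, mem_fib.2 h2⟩
      · exact absurd (hqL _ _ _ h1) (by omega)
    · rcases h2 with h2 | ⟨_, h2'⟩
      · exact absurd (hqL _ _ _ h2) (by omega)
      · rcases h2' with ⟨h, _⟩ | ⟨j, hj, hj'⟩
        · exact absurd h (by simp)
        · rcases h1' with ⟨_, i, hi⟩ | ⟨i, hi, hi'⟩
          · exact hd ξ η hne i j (hi.trans hj.symm)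
          · have h3 : s i = s j := by rw [← hs η i, ← hs η j, hi, hj]
            rw [hi', hj'] at h3
            exact absurd h3 (by simp)
  refine ⟨ξ, η, hne, (p' ξ ∪ p' η) ∪ ofBits W B, valid_add (Set.mem_singleton _) hqv hcon, ?_, ?_, L ξ, ?_⟩
  · exact (hp'sub ξ).trans (Finset.subset_union_left.trans Finset.subset_union_left)
  · exact (hp'sub η).trans (Finset.subset_union_right.trans Finset.subset_union_left)
  · intro j
    refine ⟨fun i hi => ?_, false, ?_, ?_⟩
    · obtain ⟨v, hv, hv'⟩ := full_same (hp'v ξ) (hp'v η) (hp'full ξ)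
        (L := L ξ) (by rw [e1]; exact hp'full η) (hDt ξ j) (hDt η j) (e2 j) hi
      exact ⟨v, Finset.mem_union_left _ (Finset.mem_union_left _ hv),
        Finset.mem_union_left _ (Finset.mem_union_right _ hv')⟩
    · exact Finset.mem_union_right _ (mem_ofBits.2 ⟨rfl, (hB _ _ _).2 ⟨rfl, Or.inl ⟨rfl, j, rfl⟩⟩⟩)
    · refine Finset.mem_union_right _ (mem_ofBits.2 ⟨rfl, (hB _ _ _).2 ⟨rfl, Or.inr ⟨j, rfl, ?_⟩⟩⟩)
      rw [hs ξ j]
      simp

end Pool.Agent.Helper919LB
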