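import Pool.Agent.W684.FM.Defs

/-!
# The Lipschitz Baumgartner axiom, and the sentence of the forcing language which expresses it

`BALipEnum` is the Lipschitz Baumgartner axiom for the Cantor space, stated for injective
enumerations of `ℵ₁`-dense sets. The sentence `BALipN P` of the forcing language is the literal
translation of `BALipEnum`: quantifiers over relations and sequences of points of the Cantor space
become quantifiers over names.
-/

set_option autoImplicit false

namespace Pool.Agent.Helper919LB

open Pool.Agent.Helper669.Forcing Pool.Agent.W684.FM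

section Ambient

/-- The points `x` and `y` of the Cantor space (given as subsets of `ℕ`) agree below `k`. -/
def AgreeTo (k : ℕ) (x y : ℕ → Prop) : Prop := ∀ i, i < k → (x i → y i) ∧ (y i → x i)

/-- The first digits of `x` are given by the finite sequence `s`. -/
def Starts (s : List Bool) (x : ℕ → Prop) : Prop :=
  ∀ i, i < s.length → (x i → s.getD i false = true) ∧ (s.getD i false = true → x i)

/-- `e` enumerates injectively, with indices in `ω₁`, a set of points of the Cantor space which
has uncountably many points in each basic open set. -/
def DenseEnum (e : Om1 → ℕ → Prop) : Prop :=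
  (∀ a b, a ≠ b → ∃ i, ¬ ((e a i → e b i) ∧ (e b i → e a i))) ∧
    ∀ (s : List Bool) (c : Om1), ∃ a, c < a ∧ Starts s (e a)

/-- `g` is (the graph of) an injective function from `ω₁` to `ω₁` such that the map which sends
the point `e a` to the point `e' (g a)` is Lipschitz. -/
def LipInj (e e' : Om1 → ℕ → Prop) (g : Om1 → Om1 → Prop) : Prop :=
  ((∀ a, ∃ b, g a b) ∧ ∀ a b b', g a b → g a b' → b = b') ∧
    (∀ a a' b, g a b → g a' b → a = a') ∧
      ∀ a a' b b' k, g a b → g a' b' → AgreeTo k (e a) (e a') → AgreeTo k (e' b) (e' b')

/-- The Lipschitz Baumgartner axiom for the Cantor space, stated for enumerations. -/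
def BALipEnum : Prop :=
  ∀ e e' : Om1 → ℕ → Prop, DenseEnum e → DenseEnum e' → ∃ g, LipInj e e' g

end Ambient

section Names

variable {P : Type} [Preorder P]

/-- Forcing version of `AgreeTo`. -/
def AgreeToN (k : ℕ) (x y : ℕ → Set P) : Set P :=
  fall fun i : ℕ => fall fun _ : i < k =>
    fand (fimp (meets (x i)) (meets (y i))) (fimp (meets (y i)) (meets (x i)))

/-- Forcing version of `Starts`. -/
def StartsN (s : List Bool) (x : ℕ → Set P) : Set P :=
  fall fun i : ℕ => fall fun _ : i < s.length =>
    fand (fimp (meets (x i)) (fground (s.getD i false = true)))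
      (fimp (fground (s.getD i false = true)) (meets (x i)))

/-- Forcing version of `DenseEnum`. -/
def DenseEnumN (e : Om1 → ℕ → Set P) : Set P :=
  fand (fall fun a => fall fun b => fall fun _ : a ≠ b => fex fun i =>
      fnot (fand (fimp (meets (e a i)) (meets (e b i))) (fimp (meets (e b i)) (meets (e a i)))))
    (fall fun s : List Bool => fall fun c : Om1 => fex fun a =>
      fand (fground (c < a)) (StartsN s (e a)))

/-- Forcing version of `LipInj`. -/
def LipInjN (e e' : Om1 → ℕ → Set P) (g : Om1 → Om1 → Set P) : Set P :=
  fand (IsFun g) (fand (IsInj g)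
    (fall fun a => fall fun a' => fall fun b => fall fun b' => fall fun k : ℕ =>
      fimp (fand (meets (g a b)) (fand (meets (g a' b')) (AgreeToN k (e a) (e a'))))
        (AgreeToN k (e' b) (e' b'))))

/-- The sentence `BALipEnum` of the forcing language. -/
def BALipN (P : Type) [Preorder P] : Set P :=
  fall fun e : Om1 → ℕ → Set P => fall fun e' : Om1 → ℕ → Set P =>
    fimp (fand (DenseEnumN e) (DenseEnumN e'))
      (fex fun g : Om1 → Om1 → Set P => LipInjN e e' g)

end Names

end Pool.Agent.Helper919LB
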