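import Pool.Agent.Helper919_LB.Defs
import Pool.Agent.W910.FC.Product

/-!
# Transfers

* Martin's axiom for preorders with underlying set `X` depends on the cardinality of `X` only.
* The failure of the Lipschitz Baumgartner axiom, if forced by a ccc preorder `P`, is forced by the
  product of `P` and an `ℵ₂`-closed preorder.
-/

set_option autoImplicit false

namespace Pool.Agent.Helper919LB

open Cardinal Pool.Agent.Helper669.Forcing Pool.Agent.W684.FM Pool.Agent.W910.FC

section Congr

variable {P : Type} [Preorder P] {X Y : Type}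

omit [Preorder P] in
theorem fall_equiv (e : X ≃ Y) (φ : Y → Set P) : fall (fun x => φ (e x)) = fall φ := by
  ext p
  constructor
  · intro h y
    have h1 : p ∈ φ (e (e.symm y)) := h (e.symm y)
    rwa [Equiv.apply_symm_apply] at h1
  · exact fun h x => h (e x)

theorem fex_equiv (e : X ≃ Y) (φ : Y → Set P) : fex (fun x => φ (e x)) = fex φ := by
  unfold fex
  rw [← fall_equiv e fun y => fnot (φ y)]

theorem martinHolds_congr (e : X ≃ Y) {p : P} (h : p ∈ MartinHolds P X) :
    p ∈ MartinHolds P Y := by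
  intro R D
  rw [mem_fimp]
  rintro q hq ⟨hpre, hccc, hD⟩
  obtain ⟨r, hr, h1⟩ := mem_fimp.1 (h (fun x y => R (e x) (e y)) (fun i x => D (e i) (e x))) q hq (by
    refine ⟨⟨fun x => hpre.1 (e x), fun x y z => hpre.2 (e x) (e y) (e z)⟩, ?_, fun i x => ?_⟩
    · intro Z f
      have h2 := hccc Z (fun a y => f a (e.symm y))
      have h3 : IsFun (fun (a : Om1) y => f a (e.symm y)) = IsFun f := by
        unfold IsFun
        congr 1
        · congr 1
          funext a
          exact fex_equiv e.symm fun x => meets (f a x)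
        · congr 1
          funext a
          rw [← fall_equiv e]
          congr 1
          funext x
          rw [← fall_equiv e]
          congr 1
          funext x'
          simp only [Equiv.symm_apply_apply, EmbeddingLike.apply_eq_iff_eq]
      have h4 : ∀ x y : X, CompatN (fun x y => R (e x) (e y)) x y = CompatN R (e x) (e y) :=
        fun x y => fex_equiv e fun z => fand (meets (R z (e x))) (meets (R z (e y)))
      have h5 : ∀ a b : Om1, (fex fun x => fex fun y => fand (meets (f a x))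
          (fand (meets (f b y)) (CompatN (fun x y => R (e x) (e y)) x y))) =
          fex fun x => fex fun y => fand (meets (f a (e.symm x)))
          (fand (meets (f b (e.symm y))) (CompatN R x y)) := by
        intro a b
        rw [← fex_equiv e]
        congr 1
        funext x
        rw [← fex_equiv e]
        congr 1
        funext y
        rw [h4]
        simp only [Equiv.symm_apply_apply]
      simp only [h5, ← h3]
      exact h2
    · have h2 := hD (e i) (e x)
      beta_reduce at h2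
      rw [← fex_equiv e] at h2
      exact h2)
  refine ⟨r, hr, ?_⟩
  rw [mem_fex] at h1 ⊢
  intro s hs
  obtain ⟨t, ht, F, ⟨h2, h3, h4⟩, h5⟩ := h1 s hs
  refine ⟨t, ht, fun y => F (e.symm y), ⟨?_, fun x y => ?_, fun x y => ?_⟩, fun i => ?_⟩
  · rw [← fex_equiv e]
    simp only [Equiv.symm_apply_apply]
    exact h2
  · have := h3 (e.symm x) (e.symm y)
    simpa only [Equiv.apply_symm_apply] using this
  · have := h4 (e.symm x) (e.symm y)
    simp only [Equiv.apply_symm_apply] at this
    beta_reduce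
    rw [← fex_equiv e]
    simp only [Equiv.symm_apply_apply]
    exact this
  · have := h5 (e.symm i)
    simp only [Equiv.apply_symm_apply] at this
    beta_reduce
    rw [← fex_equiv e]
    simp only [Equiv.symm_apply_apply]
    exact this

end Congr

section Product

variable {Q P : Type} [Preorder Q] [Preorder P]

theorem Tr.AgreeToN' {q : Q} {k : ℕ} {x y : ℕ → Set (Q × P)} {x' y' : ℕ → Set P}
    (hx : ∀ i, Tr q (meets (x i)) (meets (x' i))) (hy : ∀ i, Tr q (meets (y i)) (meets (y' i))) :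
    Tr q (AgreeToN k x y) (AgreeToN k x' y') :=
  Tr.fall fun i => Tr.fall fun _ => Tr.fand (Tr.fimp (hx i) (hy i)) (Tr.fimp (hy i) (hx i))

theorem Tr.DenseEnumN' {q : Q} {e : Om1 → ℕ → Set (Q × P)} {e' : Om1 → ℕ → Set P}
    (he : ∀ a i, Tr q (meets (e a i)) (meets (e' a i))) :
    Tr q (DenseEnumN e) (DenseEnumN e') :=
  Tr.fand (Tr.fall fun a => Tr.fall fun b => Tr.fall fun _ => Tr.fex fun i =>
      Tr.fnot (Tr.fand (Tr.fimp (he a i) (he b i)) (Tr.fimp (he b i) (he a i))))
    (Tr.fall fun _ => Tr.fall fun _ => Tr.fex fun a => Tr.fand (Tr.fground _ _)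
      (Tr.fall fun i => Tr.fall fun _ => Tr.fand (Tr.fimp (he a i) (Tr.fground _ _))
        (Tr.fimp (Tr.fground _ _) (he a i))))

theorem Tr.LipInjN' {q : Q} {e e1 : Om1 → ℕ → Set (Q × P)} {e' e1' : Om1 → ℕ → Set P}
    {g : Om1 → Om1 → Set (Q × P)} {g' : Om1 → Om1 → Set P}
    (he : ∀ a i, Tr q (meets (e a i)) (meets (e' a i)))
    (he1 : ∀ a i, Tr q (meets (e1 a i)) (meets (e1' a i)))
    (hg : ∀ a b, Tr q (meets (g a b)) (meets (g' a b))) :
    Tr q (LipInjN e e1 g) (LipInjN e' e1' g') :=
  Tr.fand (Tr.IsFun hg) (Tr.fand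
    (Tr.fall fun a => Tr.fall fun a' => Tr.fall fun b =>
      Tr.fimp (Tr.fand (hg a b) (hg a' b)) (Tr.fground _ _))
    (Tr.fall fun a => Tr.fall fun a' => Tr.fall fun b => Tr.fall fun b' => Tr.fall fun _ =>
      Tr.fimp (Tr.fand (hg a b) (Tr.fand (hg a' b') (Tr.AgreeToN' (he a) (he a'))))
        (Tr.AgreeToN' (he1 b) (he1 b'))))

theorem down_AgreeToN (k : ℕ) (x y : ℕ → Set P) : Down (AgreeToN k x y) :=
  down_fall fun _ => down_fall fun _ => down_fand (down_fimp _ _) (down_fimp _ _)

theorem down_DenseEnumN (e : Om1 → ℕ → Set P) : Down (DenseEnumN e) :=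
  down_fand (down_fall fun _ => down_fall fun _ => down_fall fun _ => down_fex _)
    (down_fall fun _ => down_fall fun _ => down_fex _)

theorem down_LipInjN (e e' : Om1 → ℕ → Set P) (g : Om1 → Om1 → Set P) :
    Down (LipInjN e e' g) :=
  down_fand (down_IsFun _) (down_fand (down_IsInj _) (down_fall fun _ => down_fall fun _ =>
    down_fall fun _ => down_fall fun _ => down_fall fun _ => down_fimp _ _))

theorem down_BALipN : Down (BALipN P) := down_fall fun _ => down_fall fun _ => down_fimp _ _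

/-- The product forces the failure of the Lipschitz Baumgartner axiom. -/
theorem notBALip_prod (hQ : Closed2 Q) (hP : PCCC P) (h : ∀ p : P, p ∈ fnot (BALipN P))
    (s : Q × P) : s ∈ fnot (BALipN (Q × P)) := by
  rintro ⟨q0, p0⟩ _ hB
  apply h p0 p0 le_rfl
  intro e e'
  rw [mem_fimp]
  rintro p1 hp1 ⟨hd, hd'⟩
  have hle : ∀ (q : Q) (a : Om1) (i : ℕ), Tr q (meets (lift Q (e a i))) (meets (e a i)) :=
    fun q a i => Tr.lift q _
  have hle' : ∀ (q : Q) (a : Om1) (i : ℕ), Tr q (meets (lift Q (e' a i))) (meets (e' a i)) :=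
    fun q a i => Tr.lift q _
  obtain ⟨⟨q2, p2⟩, ⟨hq2, hp2⟩, h1⟩ := mem_fimp.1
    (hB (fun a i => lift Q (e a i)) (fun a i => lift Q (e' a i))) (q0, p1) ⟨le_rfl, hp1⟩
    ⟨(Tr.DenseEnumN' (hle q0) q0 le_rfl p1).2 hd, (Tr.DenseEnumN' (hle' q0) q0 le_rfl p1).2 hd'⟩
  obtain ⟨⟨q3, p3⟩, ⟨hq3, hp3⟩, g, hg⟩ := mem_fex.1 h1 (q2, p2) le_rfl
  obtain ⟨q4, hq4, g', hg'⟩ := exists_names hQ hP (ι := Om1 × Om1) (by
    rw [Cardinal.mk_prod, Cardinal.lift_id, Cardinal.mk_ord_toType,
      Cardinal.mul_eq_self (Cardinal.aleph0_le_aleph 1)]) (fun i => g i.1 i.2) q3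
  have t : Tr q4 (LipInjN (fun a i => lift Q (e a i)) (fun a i => lift Q (e' a i)) g)
      (LipInjN e e' fun a b => g' (a, b)) :=
    Tr.LipInjN' (hle q4) (hle' q4) fun a b => hg' (a, b)
  refine ⟨p3, le_trans hp3 hp2, mem_fex_of_mem (fun a b => g' (a, b)) (down_LipInjN _ _ _) ?_⟩
  exact (t q4 le_rfl p3).1 (down_LipInjN _ _ _ _ hg _ ⟨hq4, le_rfl⟩)

end Product

end Pool.Agent.Helper919LB
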