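import Pool.Agent.Helper919_LB.NotLip
import Pool.Agent.Helper919_LB.Prod
import Pool.Agent.W910.FC.Collapse

/-!
# The forcing notion

The product of the iteration and of the preorder of the bounded partial functions from `ω₂` to the
names of the iteration for relations on the natural numbers.
-/

set_option autoImplicit false

namespace Pool.Agent.Helper919LB

open Cardinal Pool.Agent.Helper669.Forcing Pool.Agent.W684.FM Pool.Agent.W910.FC

theorem mk_XX : #XX = ℵ₁ := by
  show #((Om1 × Bool) × ℕ × Bool) = ℵ₁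
  have h1 : #Om1 = ℵ₁ := Cardinal.mk_ord_toType _
  have h0 : (ℵ₀ : Cardinal.{0}) ≤ ℵ₁ := Cardinal.aleph0_le_aleph 1
  have h2 : (#Bool : Cardinal.{0}) ≤ ℵ₀ := Cardinal.mk_le_aleph0
  have h3 : (#Bool : Cardinal.{0}) ≠ 0 := Cardinal.mk_ne_zero _
  simp only [Cardinal.mk_prod, Cardinal.lift_id]
  rw [h1, Cardinal.mk_nat, Cardinal.mul_eq_left h0 (h2.trans h0) h3,
    Cardinal.mul_eq_left le_rfl h2 h3, Cardinal.mul_eq_left h0 h0 Cardinal.aleph0_ne_zero]

/-- the stages -/
abbrev WW : Type := (Order.succ #Om1).ord.ToType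

instance : Nonempty WW := by
  rw [← Cardinal.mk_ne_zero_iff, Cardinal.mk_ord_toType]
  exact ((Order.succ_ne_bot _))

noncomputable instance : OrderBot WW := WellFoundedLT.toOrderBot _

theorem bdd_WW : Bdd XX WW := by
  intro L hL
  have h1 : #XX = #Om1 := by rw [mk_XX, Cardinal.mk_ord_toType]
  exact bdd_succ Om1 L (hL.trans h1.le)

/-- Martin's axiom for `ℵ₁` dense sets, `𝔠 ≤ ℵ₂` and the failure of the Lipschitz Baumgartner
axiom can be forced (with preservation of `ω₁`), over every ground model. -/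
theorem exists_forcing : ∃ (P : Type) (_ : Preorder P), Nonempty P ∧ ∀ p : P,
    p ∈ OmegaOnePreserved P ∧ p ∈ MartinHolds P Om1 ∧
      p ∈ ContinuumLe P (ℵ_ 2 : Cardinal.{0}).out ∧ p ∈ fnot (BALipN P) := by
  let P0 : Type := PP WW
  have hW : Bdd Om1 WW := bdd_succ Om1
  have hNM : NoMaxOrder WW := by
    constructor
    intro a
    obtain ⟨b, hb⟩ := hW {a} (by
      rw [mk_singleton, Cardinal.mk_ord_toType]
      exact Cardinal.one_lt_aleph0.le.trans (Cardinal.aleph0_le_aleph 1))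
    exact ⟨b, hb a rfl⟩
  have hQ : Closed2 (Coll WW (ℕ → ℕ → Set P0)) := Coll.closed hW
  have hP : PCCC P0 := pccc
  have hcard : #WW = #(ℵ_ 2 : Cardinal.{0}).out := by
    rw [Cardinal.mk_ord_toType, Cardinal.mk_out, Cardinal.mk_ord_toType, Cardinal.succ_aleph]
    have : (1 : Ordinal.{0}) + 1 = 2 := one_add_one_eq_two
    rw [this]
  obtain ⟨e⟩ := Cardinal.eq.1 hcard
  obtain ⟨e'⟩ : Nonempty (XX ≃ Om1) := Cardinal.eq.1 (by rw [mk_XX, Cardinal.mk_ord_toType])
  have hMA : ∀ p : P0, p ∈ MartinHolds P0 Om1 := fun p =>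
    martinHolds_congr e' (martinHolds bdd_WW p)
  refine ⟨Coll WW (ℕ → ℕ → Set P0) × P0, inferInstance, ⟨?_⟩, fun s =>
    ⟨omegaOne_prod hQ hP s, martinHolds_prod hQ hP hMA s,
      continuumLe_congr e.symm (continuumLe_prod hQ hP s), notBALip_prod hQ hP notBALipN s⟩⟩
  exact (⟨fun _ => none, Classical.arbitrary WW, fun _ _ => rfl⟩, ⟨∅, valid_empty _⟩)

end Pool.Agent.Helper919LB
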