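import Pool.Agent.Helper919_LB.Kill

/-!
# The iteration forces Martin's axiom
-/

set_option autoImplicit false

namespace Pool.Agent.Helper919LB

open Classical Cardinal Pool.Agent.Helper669.Forcing Pool.Agent.W684.FM

variable {W : Type} [LinearOrder W] [OrderBot W] [WellFoundedLT W]

section Step

/-- The data at the stage where the name `R` of a preorder is handled. -/
structure Data (α : W) (q0 : PP W) (R : XX → XX → Set (PP W))
    (A : Finset XX → Set (PP W)) (c : Code XX W) : Prop where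
  hα : α ≠ ⊥
  hlim : ∃ β, α < β
  hpre : q0 ∈ IsPreN R
  hccc : q0 ∈ CCCN R
  hR : ∀ x y, Below α (R x y)
  hA : ∀ F, Below α (A F)
  hAlb : ∀ F, ∀ a ∈ A F, a ≤ q0 ∧ ∃ z, ∀ x ∈ F, a ∈ meets (R z x)
  hAd : ∀ F, ∀ p ≤ q0, (∃ z, ∀ x ∈ F, p ∈ meets (R z x)) → ∃ a ∈ A F, ∃ r, r ≤ p ∧ r ≤ a
  hst : c.st = α
  hnm : ∀ F s, s ∈ c.nm F ↔ ∃ a ∈ A F, s = a.1

variable {α : W} {q0 : PP W} {R : XX → XX → Set (PP W)}
    {A : Finset XX → Set (PP W)} {c : Code XX W}

theorem Data.proper (h : Data α q0 R A c) : Proper c := by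
  intro F s hs a ha
  obtain ⟨t, ht, rfl⟩ := (h.hnm F s).1 hs
  rw [h.hst]
  exact h.hA F t ht a ha

theorem Data.notMem_Slt (h : Data α q0 R A c) : c ∉ Slt α := fun hx => by
  have := (mem_Slt.1 hx).1
  rw [h.hst] at this
  exact lt_irrefl _ this

/-- the strong chain condition for one more coordinate -/
theorem Data.scc (h : Data α q0 R A c) : SCC (Sle α ∪ {c}) := by
  by_cases hc : c ∈ (Sle α : Set (Code XX W))
  · have : (Sle α ∪ {c} : Set (Code XX W)) = Sle α := by
      rw [Set.union_eq_left, Set.singleton_subset_iff]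
      exact hc
    rw [this]
    exact SCC_Sle α
  intro J _ s p t hp hs hd
  by_contra hno
  have hunc := top_uncountable J s p t hp hs hd hno
  obtain ⟨e⟩ := exists_emb hunc
  have hS := proper_top (α := α) h.proper
  have hinit := initial_top h.hst
  let p1 : Om1 → PP W := fun ξ => ⟨restr (Sle α) (p (e ξ)),
    (valid_restr hS hinit (hp (e ξ))).mono (Sle_sub_Sall α)⟩
  have hz : ∀ ξ, p1 ξ ≤ q0 ∧ ∃ z, ∀ x ∈ fib (p (e ξ)) c, p1 ξ ∈ meets (R z x) := by
    intro ξ
    obtain ⟨y, hy⟩ := (e ξ).2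
    obtain ⟨_, s', hs', hsp⟩ := hp (e ξ) _ hy
    obtain ⟨a, ha, rfl⟩ := (h.hnm _ s').1 hs'
    have hle : p1 ξ ≤ a := by
      apply PP.le_def.2
      exact subset_restr hsp fun b hb => Or.inl ((h.hA _).memSlt ha hb)
    obtain ⟨h1, z, h2⟩ := h.hAlb _ a ha
    exact ⟨hle.trans h1, z, fun x hx => down_meets _ _ (h2 x hx) _ hle⟩
  choose hle z hz using hz
  obtain ⟨β, hαβ⟩ := h.hlim
  have hej : ∀ ξ η, ξ ≠ η → ((e ξ : Om1)) ≠ (e η : Om1) := fun ξ η hne h1 =>
    hne (e.injective (Subtype.ext h1))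
  obtain ⟨r, hr1, hr2⟩ := kill (s := s) (p' := p1) (t := fun ξ => t (e ξ)) hαβ
    (fun ξ a ha => (mem_restr.1 ha).2) (fun ξ => hs _) (fun ξ η hne => hd _ _ (hej ξ η hne))
  obtain ⟨ξ, _, η, _, hne, u, hu1, hu2, w, hw1, hw2⟩ :=
    two_step pccc h.hccc (Set.univ : Set Om1) not_countable_om1 r z
      (fun ξ _ => (hr1 ξ).trans (hle ξ))
  have hg := hr2 ξ η hne u hu1 hu2
  have huξ : u ≤ p1 ξ := hu1.trans (hr1 ξ)
  have huη : u ≤ p1 η := hu2.trans (hr1 η)
  have huq : u ≤ q0 := huξ.trans (hle ξ)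
  have hupre : u ∈ IsPreN R := down_IsPreN R _ h.hpre _ huq
  have hlb : ∀ x ∈ fib (p (e ξ)) c ∪ fib (p (e η)) c, u ∈ meets (R w x) := by
    intro x hx
    rcases Finset.mem_union.1 hx with h1 | h1
    · exact IsPreN.trans hupre hw1 (down_meets _ _ (hz ξ x h1) _ huξ)
    · exact IsPreN.trans hupre hw2 (down_meets _ _ (hz η x h1) _ huη)
  obtain ⟨a, ha, u2, hu2u, hu2a⟩ := h.hAd _ u huq ⟨w, hlb⟩
  have hres : Valid (Sle α) (restr (Sle α) u2.1) :=
    valid_restr (fun _ => proper_Sall) (initial_Sle α) u2.2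
  have hv := valid_top hc hres (F := fib (p (e ξ)) c ∪ fib (p (e η)) c)
    ((h.hnm _ _).2 ⟨a, ha, rfl⟩)
    (subset_restr (PP.le_def.1 hu2a) fun b hb => Or.inl ((h.hA _).memSlt ha hb))
  have hsub : ∀ ζ : Om1, u ≤ p1 ζ → fib (p (e ζ)) c ⊆ fib (p (e ξ)) c ∪ fib (p (e η)) c →
      p (e ζ) ⊆ restr (Sle α) u2.1 ∪
        (fib (p (e ξ)) c ∪ fib (p (e η)) c).image fun x => (c, x) := by
    intro ζ h1 h2 b hb
    rcases (hp (e ζ) b hb).1 with h3 | h3
    · refine Finset.mem_union_left _ (mem_restr.2 ⟨?_, h3⟩)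
      exact PP.le_def.1 (hu2u.trans h1) (mem_restr.2 ⟨hb, h3⟩)
    · have h4 : b.1 = c := h3
      have h6 : (c, b.2) = b := Prod.ext h4.symm rfl
      have h5 : b.2 ∈ fib (p (e ζ)) c := by
        rw [mem_fib, h6]
        exact hb
      exact Finset.mem_union_right _ (Finset.mem_image.2 ⟨b.2, h2 h5, h6⟩)
  refine hno ⟨e ξ, e η, hej ξ η hne, _, hv, hsub ξ huξ Finset.subset_union_left,
    hsub η huη Finset.subset_union_right, ?_⟩
  exact ((hg.mono (PP.le_def.1 hu2u)).restr (c0_mem_Sle α)).mono Finset.subset_union_left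

theorem Data.mem_V (h : Data α q0 R A c) : c ∈ V α := mem_V_of h.hα h.hst h.proper h.scc

theorem Data.mem_Sall (h : Data α q0 R A c) : c ∈ Sall W :=
  Helper919LB.mem_Sall.2 (by rw [h.hst]; exact h.mem_V)

/-- a condition extends to one which puts into the filter an element of a given dense set below
all elements already put into it -/
theorem Data.ext [Nonempty XX] (h : Data α q0 R A c) {D : XX → Set (PP W)}
    (hD : q0 ∈ IsDenseN R D) (hDb : ∀ x, Below α (D x)) {q : PP W} (hq : q ≤ q0) :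
    ∃ r ≤ q, ∃ d, (c, d) ∈ r.1 ∧ r ∈ meets (D d) ∧ ∀ x, (c, x) ∈ q.1 → r ∈ meets (R d x) := by
  have hz : ∃ z, ∀ x ∈ fib q.1 c, q ∈ meets (R z x) := by
    rcases (fib q.1 c).eq_empty_or_nonempty with h1 | ⟨y, hy⟩
    · rw [h1]
      exact ⟨Classical.arbitrary XX, by simp⟩
    · rw [mem_fib] at hy
      obtain ⟨_, s, hs, hsq⟩ := q.2 _ hy
      obtain ⟨a, ha, rfl⟩ := (h.hnm _ s).1 hs
      obtain ⟨_, z, hz⟩ := h.hAlb _ a ha
      exact ⟨z, fun x hx => down_meets _ _ (hz x hx) _ hsq⟩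
  obtain ⟨z, hz⟩ := hz
  obtain ⟨u, hu, d, hud, hur⟩ := mem_fex.1 (hD z) q hq
  have huq : u ≤ q0 := hu.trans hq
  have hupre : u ∈ IsPreN R := down_IsPreN R _ h.hpre _ huq
  have hdx : ∀ x ∈ insert d (fib q.1 c), u ∈ meets (R d x) := by
    intro x hx
    rcases Finset.mem_insert.1 hx with rfl | hx
    · exact IsPreN.refl hupre _
    · exact IsPreN.trans hupre hur (down_meets _ _ (hz x hx) _ hu)
  obtain ⟨a, ha, u2, hu2u, hu2a⟩ := h.hAd _ u huq ⟨d, hdx⟩
  have hres : Valid (Slt α) (restr (Slt α) u2.1) :=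
    valid_restr (fun _ => proper_Sall) (initial_Slt α) u2.2
  have hqu2 : q.1 ⊆ u2.1 := (hu2u.trans hu : u2 ≤ q)
  have hv : Valid (Sall W) (restr (Slt α) u2.1 ∪ q.1) :=
    amalg_one (Slt_sub_Sall α) q.2 hres (restr_mono hqu2)
  let t : Cond XX W := insert (c, d) (restr (Slt α) u2.1 ∪ q.1)
  have hnc : ∀ x, (c, x) ∉ restr (Slt α) u2.1 := fun x hx => h.notMem_Slt (mem_restr.1 hx).2
  have haub : a.1 ⊆ restr (Slt α) u2.1 := subset_restr hu2a fun b hb => (h.hA _).memSlt ha hb
  have ht : Valid (Sall W) t := by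
    intro b hb
    by_cases hbc : b.1 = c
    · refine ⟨by rw [hbc]; exact h.mem_Sall, a.1, ?_, ?_⟩
      · have h4 : fib t b.1 = insert d (fib q.1 c) := by
          ext x
          rw [mem_fib, Finset.mem_insert, Finset.mem_insert, Finset.mem_union, mem_fib, hbc]
          constructor
          · rintro (h5 | h5 | h5)
            · exact Or.inl (Prod.mk.inj h5).2
            · exact absurd h5 (hnc x)
            · exact Or.inr h5
          · rintro (rfl | h5)
            · exact Or.inl rfl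
            · exact Or.inr (Or.inr h5)
        rw [h4, hbc, h.hnm]
        exact ⟨a, ha, rfl⟩
      · exact haub.trans (Finset.subset_union_left.trans (Finset.subset_insert _ _))
    · have hb' : b ∈ restr (Slt α) u2.1 ∪ q.1 := by
        rcases Finset.mem_insert.1 hb with h1 | h1
        · exact absurd (by rw [h1]) hbc
        · exact h1
      obtain ⟨h1, s, hs, hst⟩ := hv b hb'
      refine ⟨h1, s, ?_, hst.trans (Finset.subset_insert _ _)⟩
      have h4 : fib t b.1 = fib (restr (Slt α) u2.1 ∪ q.1) b.1 := fib_congr fun x => by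
        rw [Finset.mem_insert]
        constructor
        · rintro (h5 | h5)
          · exact absurd (Prod.mk.inj h5).1 hbc
          · exact h5
        · exact Or.inr
      rw [h4]
      exact hs
  let r : PP W := ⟨t, ht⟩
  have hrle : r ≤ rlt α u2 := by
    apply PP.le_def.2
    exact Finset.Subset.trans Finset.subset_union_left (Finset.subset_insert _ _)
  refine ⟨r, ?_, d, Finset.mem_insert_self _ _, ?_, ?_⟩
  · apply PP.le_def.2
    exact Finset.Subset.trans Finset.subset_union_right (Finset.subset_insert _ _)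
  · exact down_meets _ _ (meets_rlt (hDb d) (down_meets _ _ hud _ hu2u)) _ hrle
  · intro x hx
    have h1 : u2 ∈ meets (R d x) :=
      down_meets _ _ (hdx x (Finset.mem_insert_of_mem (mem_fib.2 hx))) _ hu2u
    exact down_meets _ _ (meets_rlt (h.hR d x) h1) _ hrle

/-- the generic filter -/
def genF (c : Code XX W) (R : XX → XX → Set (PP W)) : XX → Set (PP W) :=
  fun y => {p | ∃ x, (c, x) ∈ p.1 ∧ p ∈ meets (R x y)}

theorem down_genF (c : Code XX W) (R : XX → XX → Set (PP W)) (y : XX) : Down (genF c R y) := by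
  rintro p ⟨x, hx, hp⟩ q hq
  exact ⟨x, hq hx, down_meets _ _ hp _ hq⟩

theorem Data.filter [Nonempty XX] (h : Data α q0 R A c) {D : XX → XX → Set (PP W)}
    (hD : ∀ i, q0 ∈ IsDenseN R (D i)) (hDb : ∀ i x, Below α (D i x)) :
    q0 ∈ fand (IsFilterN R (genF c R))
        (fall fun i => fex fun x => fand (meets (genF c R x)) (meets (D i x))) := by
  have i0 : XX := Classical.arbitrary XX
  have hmeet : q0 ∈ fall fun i => fex fun x => fand (meets (genF c R x)) (meets (D i x)) := by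
    intro i
    rw [mem_fex]
    intro q hq
    obtain ⟨r, hr, d, hd, hrD, _⟩ := h.ext (hD i) (hDb i) hq
    have hrpre : r ∈ IsPreN R := down_IsPreN R _ h.hpre _ (hr.trans hq)
    exact ⟨r, hr, d, meets_of_mem ⟨d, hd, IsPreN.refl hrpre d⟩, hrD⟩
  refine ⟨⟨?_, ?_, ?_⟩, hmeet⟩
  · rw [mem_fex]
    intro q hq
    obtain ⟨r, hr, x, hx, _⟩ := mem_fex.1 (hmeet i0) q hq
    exact ⟨r, hr, x, hx⟩
  · intro x y
    rw [mem_fimp]
    rintro q hq ⟨h1, h2⟩
    obtain ⟨r, hr, x', hx', hrx⟩ := exists_of_meets (down_genF c R x) h1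
    have hrpre : r ∈ IsPreN R := down_IsPreN R _ h.hpre _ (hr.trans hq)
    exact ⟨r, hr, meets_of_mem ⟨x', hx', IsPreN.trans hrpre hrx (down_meets _ _ h2 _ hr)⟩⟩
  · intro x y
    rw [mem_fimp]
    rintro q hq ⟨h1, h2⟩
    obtain ⟨r, hr, x', hx', hrx⟩ := exists_of_meets (down_genF c R x) h1
    obtain ⟨s, hs, y', hy', hsy⟩ :=
      exists_of_meets (down_genF c R y) (down_meets _ _ h2 _ hr)
    have hsq : s ≤ q0 := hs.trans (hr.trans hq)
    obtain ⟨t, ht, d, hd, _, htd⟩ := h.ext (hD i0) (hDb i0) hsq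
    have htpre : t ∈ IsPreN R := down_IsPreN R _ h.hpre _ (ht.trans hsq)
    refine ⟨t, ht.trans (hs.trans hr), ?_⟩
    refine mem_fex_of_mem d (down_fand (down_meets _) (down_fand (down_meets _) (down_meets _)))
      ⟨meets_of_mem ⟨d, hd, IsPreN.refl htpre d⟩, ?_, ?_⟩
    · exact IsPreN.trans htpre (htd x' (hs hx')) (down_meets _ _ hrx _ (ht.trans hs))
    · exact IsPreN.trans htpre (htd y' hy') (down_meets _ _ hsy _ ht)

end Step

instance : Infinite XX := by
  have : Infinite Om1 := by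
    rw [Cardinal.infinite_iff, Cardinal.mk_ord_toType]
    exact Cardinal.aleph0_le_aleph _
  exact (inferInstance : Infinite ((Om1 × Bool) × ℕ × Bool))

/-- The iteration forces Martin's axiom. -/
theorem martinHolds (hW : Bdd XX W) (p : PP W) : p ∈ MartinHolds (PP W) XX := by
  intro R D
  rw [mem_fimp]
  rintro q0 _ ⟨hpre, hccc, hD⟩
  refine ⟨q0, le_rfl, ?_⟩
  -- countable names
  choose R' hR'c hR' using fun x y => exists_countable_name pccc (R x y)
  choose D' hD'c hD' using fun i x => exists_countable_name pccc (D i x)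
  have hRe : ∀ x y, meets (R x y) = meets (R' x y) := fun x y => (hR' x y).symm
  have hDe : ∀ i x, meets (D i x) = meets (D' i x) := fun i x => (hD' i x).symm
  have hpre' : q0 ∈ IsPreN R' := by
    simpa only [IsPreN, hRe] using hpre
  have hccc' : q0 ∈ CCCN R' := by
    simpa only [CCCN, CompatN, hRe] using hccc
  have hD2 : ∀ i, q0 ∈ IsDenseN R' (D' i) := by
    intro i
    have := hD i
    simpa only [IsDenseN, hRe, hDe] using this
  choose A hAc hAlb hAd using fun F : Finset XX => exists_predense (P := PP W) pccc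
    {r | r ≤ q0 ∧ ∃ z, ∀ x ∈ F, r ∈ meets (R' z x)} (by
      rintro r ⟨h1, z, h2⟩ s hs
      exact ⟨hs.trans h1, z, fun x hx => down_meets _ _ (h2 x hx) _ hs⟩)
  obtain ⟨α1, h1⟩ := exists_below hW (ι := XX × XX) (by simp) (fun i => R' i.1 i.2)
    fun i => hR'c i.1 i.2
  obtain ⟨α2, h2⟩ := exists_below hW (ι := XX × XX) (by simp) (fun i => D' i.1 i.2)
    fun i => hD'c i.1 i.2
  obtain ⟨α3, h3⟩ := exists_below hW (ι := Finset XX) (by simp) A hAc
  have hone : ∀ β : W, ∃ γ, β < γ := by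
    intro β
    obtain ⟨γ, h4⟩ := hW {β} (by
      rw [Cardinal.mk_singleton]
      exact Cardinal.one_le_aleph0.trans (Cardinal.aleph0_le_mk XX))
    exact ⟨γ, h4 β rfl⟩
  obtain ⟨α4, h4'⟩ := hone ⊥
  let α := max α4 (max α1 (max α2 α3))
  have hα4 : α4 ≤ α := le_max_left _ _
  have hα1 : α1 ≤ α := (le_max_left _ _).trans (le_max_right _ _)
  have hα2 : α2 ≤ α := ((le_max_left _ _).trans (le_max_right _ _)).trans (le_max_right _ _)
  have hα3 : α3 ≤ α := ((le_max_right _ _).trans (le_max_right _ _)).trans (le_max_right _ _)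
  obtain ⟨c, hcst, hcnm⟩ := Code.exists_code α (fun F => Subtype.val '' A F)
    fun F => (hAc F).image _
  have hdata : Data α q0 R' A c := by
    refine ⟨(h4'.trans_le hα4).ne', hone α, hpre', hccc', fun x y => h1 α hα1 (x, y),
      fun F => h3 α hα3 F, fun F a ha => hAlb F ha, ?_, hcst, ?_⟩
    · intro F p hp hz
      exact hAd F p ⟨hp, hz⟩
    · intro F s
      rw [hcnm]
      constructor
      · rintro ⟨a, ha, rfl⟩
        exact ⟨a, ha, rfl⟩
      · rintro ⟨a, ha, rfl⟩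
        exact ⟨a, ha, rfl⟩
  have hfil := hdata.filter hD2 (fun i x => h2 α hα2 (i, x))
  refine mem_fex_of_mem (genF c R') (down_fand (down_IsFilterN _ _)
    (down_fall fun _ => down_fex _)) ?_
  simpa only [IsFilterN, hRe, hDe] using hfil

end Pool.Agent.Helper919LB
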