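import Pool.Agent.Helper919_LB.Poset

/-!
# The coordinate which kills a chain condition

`p' ξ` are conditions and `t ξ` tuples of places. The coordinate `c` of stage `β` adds a set of
indices `ξ` such that `p' ξ` is in the generic filter and such that the tuples form good pairs.
-/

set_option autoImplicit false

namespace Pool.Agent.Helper919LB

open Classical Cardinal Pool.Agent.Helper669.Forcing Pool.Agent.W684.FM

variable {W : Type} [LinearOrder W] [OrderBot W] [WellFoundedLT W]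

/-- the element of `XX` which stands for an index -/
def ix (ξ : Om1) : XX := bit (ξ, false) 0 false

theorem ix_inj {ξ η : Om1} : ix ξ = ix η ↔ ξ = η := by
  unfold ix
  rw [bit_inj]
  constructor
  · rintro ⟨h, _⟩
    exact congrArg Prod.fst h
  · rintro rfl
    exact ⟨rfl, rfl, rfl⟩

/-- the set of the elements of `XX` which stands for a set of indices -/
noncomputable def ixm (E : Finset Om1) : Finset XX := E.image ix

theorem mem_ixm {ξ : Om1} {E : Finset Om1} : ix ξ ∈ ixm E ↔ ξ ∈ E := by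
  simp only [ixm, Finset.mem_image]
  constructor
  · rintro ⟨η, h1, h2⟩
    rw [← ix_inj.1 h2]
    exact h1
  · exact fun h => ⟨ξ, h, rfl⟩

theorem ixm_subset {E E' : Finset Om1} (h : E ⊆ E') : ixm E ⊆ ixm E' := Finset.image_subset_image h

/-- The data of the coordinate. -/
structure KData (α β : W) {J : Type} (s : J → Bool) (p' : Om1 → PP W) (t : Om1 → J → Pl)
    (A : Finset Om1 → Set (PP W)) (c : Code XX W) : Prop where
  hαβ : α < β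
  hs : ∀ ξ j, (t ξ j).2 = s j
  hd : ∀ ξ η, ξ ≠ η → ∀ i j, t ξ i ≠ t η j
  hA1 : ∀ E, ∀ a ∈ A E, (∀ ξ ∈ E, a ≤ p' ξ) ∧
    ∀ ξ ∈ E, ∀ η ∈ E, ξ ≠ η → Good a.1 (t ξ) (t η)
  hA2 : ∀ E (r : PP W), (∀ ξ ∈ E, r ≤ p' ξ) →
    (∀ ξ ∈ E, ∀ η ∈ E, ξ ≠ η → Good r.1 (t ξ) (t η)) → ∃ a ∈ A E, ∃ u, u ≤ r ∧ u ≤ a
  hA3 : ∀ E, ∀ a ∈ A E, ∀ b ∈ a.1, b.1 ∈ Sle α
  hst : c.st = β
  hnm : ∀ F s, s ∈ c.nm F ↔ ∃ E, F = ixm E ∧ ∃ a ∈ A E, s = a.1

variable {α β : W} {J : Type} {s : J → Bool} {p' : Om1 → PP W} {t : Om1 → J → Pl}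
  {A : Finset Om1 → Set (PP W)} {c : Code XX W}

theorem Sle_mono {α β : W} (h : α ≤ β) : Sle α ⊆ Sle β := fun _ hc =>
  mem_Sle.2 ⟨(mem_Sle.1 hc).1.trans h, (mem_Sle.1 hc).2⟩

theorem KData.proper (h : KData α β s p' t A c) : Proper c := by
  intro F s' hs' a ha
  obtain ⟨E, _, b, hb, rfl⟩ := (h.hnm F s').1 hs'
  rw [h.hst]
  exact (mem_Sle.1 (h.hA3 E b hb a ha)).1.trans_lt h.hαβ

omit [WellFoundedLT W] in
/-- transfer of a good pair -/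
theorem good_cross {p0 q r : Cond XX W} {a b b' : J → Pl} {L : ℕ} (h : Good p0 a b)
    (hL : ∀ x n v, (c0 W, bit x n v) ∈ p0 → n < L)
    (htr : ∀ j, ∀ i < L, ∀ v, (c0 W, bit (b j) i v) ∈ p0 → (c0 W, bit (b' j) i v) ∈ q)
    (hpr : p0 ⊆ r) (hqr : q ⊆ r) : Good r a b' := by
  obtain ⟨N, hN⟩ := h
  refine ⟨N, fun j => ?_⟩
  obtain ⟨h1, v, hv, hv'⟩ := hN j
  refine ⟨fun i hi => ?_, v, hpr hv, hqr (htr j N (hL _ _ _ hv) _ hv')⟩
  obtain ⟨w, hw, hw'⟩ := h1 i hi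
  exact ⟨w, hpr hw, hqr (htr j i (hL _ _ _ hw) _ hw')⟩

instance : Nonempty (PP W) := ⟨⟨∅, valid_empty _⟩⟩

theorem nonempty_om1 : Nonempty Om1 := by
  by_contra hcon
  rw [not_nonempty_iff] at hcon
  exact not_countable_om1 (Set.countable_univ_iff.2 inferInstance)

theorem KData.scc [Finite J] (h : KData α β s p' t A c) : SCC (Sle β ∪ {c}) := by
  by_cases hc : c ∈ (Sle β : Set (Code XX W))
  · have : (Sle β ∪ {c} : Set (Code XX W)) = Sle β := by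
      rw [Set.union_eq_left, Set.singleton_subset_iff]
      exact hc
    rw [this]
    exact SCC_Sle β
  intro J2 _ s2 r τ hr hs2 hd2
  by_contra hno
  have hunc := top_uncountable J2 s2 r τ hr hs2 hd2 hno
  have hSS : (Sle α : Set (Code XX W)) ⊆ Sle β := Sle_mono h.hαβ.le
  have hS := proper_top (α := β) h.proper
  have hinit := initial_top h.hst
  have : Fintype J := Fintype.ofFinite J
  have : Fintype J2 := Fintype.ofFinite J2
  have hE : ∀ ξ ∈ {ξ | ∃ x, (c, x) ∈ r ξ}, ∃ E : Finset Om1, fib (r ξ) c = ixm E ∧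
      ∃ a ∈ A E, a.1 ⊆ r ξ := by
    rintro ξ ⟨x, hx⟩
    obtain ⟨_, s', hs', hsr⟩ := hr ξ _ hx
    obtain ⟨E, hE, a, ha, rfl⟩ := (h.hnm _ _).1 hs'
    exact ⟨E, hE, a, ha, hsr⟩
  choose! E hEf a ha har using hE
  let r' : Om1 → Cond XX W := fun ξ => restr (Sle β) (r ξ)
  have hr'v : ∀ ξ, Valid (Sle β) (r' ξ) := fun ξ => valid_restr hS hinit (hr ξ)
  have har' : ∀ ξ ∈ {ξ | ∃ x, (c, x) ∈ r ξ}, (a ξ).1 ⊆ r' ξ := fun ξ hξ =>
    subset_restr (har ξ hξ) fun b hb => hSS (h.hA3 _ _ (ha ξ hξ) b hb)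
  have F1 : ∀ ξ ∈ {ξ | ∃ x, (c, x) ∈ r ξ}, ∀ ε ∈ E ξ, (p' ε).1 ⊆ r' ξ := fun ξ hξ ε hε =>
    Finset.Subset.trans (PP.le_def.1 ((h.hA1 _ _ (ha ξ hξ)).1 ε hε)) (har' ξ hξ)
  have F2 : ∀ ξ ∈ {ξ | ∃ x, (c, x) ∈ r ξ}, ∀ ε ∈ E ξ, ∀ ε' ∈ E ξ, ε ≠ ε' →
      Good (r' ξ) (t ε) (t ε') := fun ξ hξ ε hε ε' hε' hne =>
    ((h.hA1 _ _ (ha ξ hξ)).2 ε hε ε' hε' hne).mono (har' ξ hξ)
  obtain ⟨A1, R, hA1, hunc1, hR, hdd⟩ := Helper126.delta_system E _ hunc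
  obtain ⟨k, hk⟩ := Helper126.uncountable_fiber (fun ξ => (E ξ \ R).card) A1 hunc1
  have hen : ∀ ξ ∈ {ξ ∈ A1 | (E ξ \ R).card = k}, ∃ e : Fin k → Om1,
      (∀ l, e l ∈ E ξ \ R) ∧ Function.Injective e ∧ ∀ x ∈ E ξ \ R, ∃ l, e l = x := by
    rintro ξ ⟨_, hξ⟩
    let f := Finset.equivFinOfCardEq hξ
    refine ⟨fun l => (f.symm l).1, fun l => (f.symm l).2, fun l l' hll => ?_, fun x hx => ?_⟩
    · exact f.symm.injective (Subtype.ext hll)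
    · exact ⟨f ⟨x, hx⟩, by simp⟩
  have := nonempty_om1
  choose! e he1 he2 he3 using hen
  let T : Om1 → (Fin k × J) ⊕ J2 → Pl := fun ξ => Sum.elim (fun x => t (e ξ x.1) x.2) (τ ξ)
  let s3 : (Fin k × J) ⊕ J2 → Bool := Sum.elim (fun x => s x.2) s2
  have hTs : ∀ ξ j, (T ξ j).2 = s3 j := by
    rintro ξ (x | j)
    · exact h.hs _ _
    · exact hs2 _ _
  have hee : ∀ ξ ∈ {ξ ∈ A1 | (E ξ \ R).card = k}, ∀ η ∈ {ξ ∈ A1 | (E ξ \ R).card = k}, ξ ≠ η →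
      ∀ l l', e ξ l ≠ e η l' := by
    intro ξ hξ η hη hne l l' hll
    have h1 := Finset.mem_sdiff.1 (he1 ξ hξ l)
    have h2 := Finset.mem_sdiff.1 (he1 η hη l')
    rw [← hll] at h2
    exact h1.2 (hdd ξ hξ.1 η hη.1 hne _ h1.1 h2.1)
  obtain ⟨A3, R2, hA3, hunc3, -, hdd2⟩ := Helper126.delta_system
    (fun ξ => Finset.univ.image (T ξ)) _ hk
  have hunc4 : ¬ {ξ ∈ A3 | ∀ j, T ξ j ∉ R2}.Countable := by
    intro hcount
    apply hunc3
    have h1 : (⋃ ρ ∈ R2, {ξ ∈ A3 | ∃ x : Fin k × J, t (e ξ x.1) x.2 = ρ}).Countable := by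
      apply Set.Countable.biUnion R2.countable_toSet
      intro ρ _
      apply Set.Subsingleton.countable
      rintro ξ ⟨hξ, x, hx⟩ η ⟨hη, y, hy⟩
      by_contra hne
      exact h.hd _ _ (hee ξ (hA3 hξ) η (hA3 hη) hne x.1 y.1) x.2 y.2 (hx.trans hy.symm)
    have h2 : (⋃ ρ ∈ R2, {ξ ∈ A3 | ∃ j : J2, τ ξ j = ρ}).Countable := by
      apply Set.Countable.biUnion R2.countable_toSet
      intro ρ _
      apply Set.Subsingleton.countable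
      rintro ξ ⟨hξ, x, hx⟩ η ⟨hη, y, hy⟩
      by_contra hne
      exact hd2 _ _ hne x y (hx.trans hy.symm)
    refine ((hcount.union h1).union h2).mono fun ξ hξ => ?_
    by_cases h3 : ∀ j, T ξ j ∉ R2
    · exact Or.inl (Or.inl ⟨hξ, h3⟩)
    · push Not at h3
      obtain ⟨x | j, hj⟩ := h3
      · exact Or.inl (Or.inr (Set.mem_biUnion hj ⟨hξ, x, rfl⟩))
      · exact Or.inr (Set.mem_biUnion hj ⟨hξ, j, rfl⟩)
  have hTd : ∀ ξ ∈ {ξ ∈ A3 | ∀ j, T ξ j ∉ R2}, ∀ η ∈ {ξ ∈ A3 | ∀ j, T ξ j ∉ R2}, ξ ≠ η →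
      ∀ i j, T ξ i ≠ T η j := by
    intro ξ hξ η hη hne i j hij
    refine hξ.2 i (hdd2 ξ hξ.1 η hη.1 hne _ (Finset.mem_image_of_mem _ (Finset.mem_univ i)) ?_)
    rw [hij]
    exact Finset.mem_image_of_mem _ (Finset.mem_univ j)
  let L : Om1 → ℕ := fun ξ => height (r' ξ)
  choose r2 hr2v hr2sub hr2full _ _ using fun ξ =>
    exists_full (S := Sle β) (c0_mem_Sle β) (hr'v ξ) (Finset.univ.image (T ξ)) (L ξ)
      (fun _ _ => false)
  have hTD : ∀ ξ j, T ξ j ∈ Finset.univ.image (T ξ) := fun ξ j =>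
    Finset.mem_image_of_mem _ (Finset.mem_univ j)
  let cd : Om1 → ℕ × ((Fin k × J) ⊕ J2 → Finset ℕ) := fun ξ =>
    (L ξ, fun j => pat (r2 ξ) (T ξ j))
  obtain ⟨cc, hcc⟩ := Helper126.uncountable_fiber cd _ hunc4
  obtain ⟨ξ, hξ, η, hη, hne, q, hq, hq1, hq2, hgood⟩ := (SCC_Sle β).set hcc
    ((Fin k × J) ⊕ J2) s3 r2 T (fun ξ _ => hr2v ξ) (fun ξ _ => hTs ξ)
    (fun ξ hξ η hη => hTd ξ hξ.1 η hη.1)
  have hξ2 := hA3 hξ.1.1
  have hη2 := hA3 hη.1.1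
  have hξ0 := hA1 hξ2.1
  have hη0 := hA1 hη2.1
  have hcd : cd ξ = cd η := hξ.2.trans hη.2.symm
  have e1 : L ξ = L η := congrArg Prod.fst hcd
  have e2 : ∀ j, pat (r2 ξ) (T ξ j) = pat (r2 η) (T η j) := fun j =>
    congrFun (congrArg (fun c => c.2) hcd) j
  have htr : ∀ j, ∀ i < L ξ, ∀ v, (c0 W, bit (T ξ j) i v) ∈ r2 ξ →
      (c0 W, bit (T η j) i v) ∈ r2 η := by
    intro j i hi v hv
    obtain ⟨w, hw, hw'⟩ := full_same (hr2v ξ) (hr2v η) (hr2full ξ) (L := L ξ)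
      (by rw [e1]; exact hr2full η) (hTD ξ j) (hTD η j) (e2 j) hi
    rw [bit_unique (hr2v ξ) hv hw]
    exact hw'
  have mixed : ∀ ε ∈ E ξ, ∀ ε' ∈ E η, ε ≠ ε' → Good q (t ε) (t ε') := by
    intro ε hε ε' hε' hεε
    by_cases h1 : ε' ∈ E ξ
    · exact (F2 ξ hξ0 ε hε ε' h1 hεε).mono ((hr2sub ξ).trans hq1)
    by_cases h2 : ε ∈ E η
    · exact (F2 η hη0 ε h2 ε' hε' hεε).mono ((hr2sub η).trans hq2)
    have h3 : ε ∈ E ξ \ R := Finset.mem_sdiff.2 ⟨hε, fun h4 => h2 (hR η hη2.1 h4)⟩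
    have h4 : ε' ∈ E η \ R := Finset.mem_sdiff.2 ⟨hε', fun h5 => h1 (hR ξ hξ2.1 h5)⟩
    obtain ⟨l, rfl⟩ := he3 ξ hξ2 ε h3
    obtain ⟨l', rfl⟩ := he3 η hη2 ε' h4
    by_cases hll : l = l'
    · subst hll
      exact hgood.comp (fun j : J => (Sum.inl (l, j) : (Fin k × J) ⊕ J2))
    · have h5 : e ξ l ≠ e ξ l' := fun h6 => hll (he2 ξ hξ2 h6)
      have h6 := F2 ξ hξ0 _ hε _ (Finset.mem_sdiff.1 (he1 ξ hξ2 l')).1 h5
      exact good_cross h6 (L := L ξ) (fun x n v hx => lt_height hx)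
        (fun j i hi v hv => htr (Sum.inl (l', j)) i hi v (hr2sub ξ hv))
        ((hr2sub ξ).trans hq1) hq2
  have key : ∀ ε ∈ E ξ ∪ E η, ∀ ε' ∈ E ξ ∪ E η, ε ≠ ε' → Good q (t ε) (t ε') := by
    intro ε hε ε' hε' hεε
    rcases Finset.mem_union.1 hε with h1 | h1
    · rcases Finset.mem_union.1 hε' with h2 | h2
      · exact (F2 ξ hξ0 ε h1 ε' h2 hεε).mono ((hr2sub ξ).trans hq1)
      · exact mixed ε h1 ε' h2 hεε
    · rcases Finset.mem_union.1 hε' with h2 | h2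
      · exact (mixed ε' h2 ε h1 hεε.symm).symm fun j => (h.hs _ j).trans (h.hs _ j).symm
      · exact (F2 η hη0 ε h1 ε' h2 hεε).mono ((hr2sub η).trans hq2)
  obtain ⟨a', ha', u, hu, hua⟩ := h.hA2 (E ξ ∪ E η) ⟨q, hq.mono (Sle_sub_Sall β)⟩ (by
    intro ε hε
    apply PP.le_def.2
    rcases Finset.mem_union.1 hε with h1 | h1
    · exact (F1 ξ hξ0 ε h1).trans ((hr2sub ξ).trans hq1)
    · exact (F1 η hη0 ε h1).trans ((hr2sub η).trans hq2)) key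
  have hqu : q ⊆ u.1 := PP.le_def.1 hu
  have hu2 : Valid (Sle β) (restr (Sle β) u.1) :=
    valid_restr (fun _ => proper_Sall) (initial_Sle β) u.2
  have hv := valid_top hc hu2 (F := ixm (E ξ ∪ E η)) ((h.hnm _ _).2 ⟨_, rfl, a', ha', rfl⟩)
    (subset_restr (PP.le_def.1 hua) fun b hb => hSS (h.hA3 _ _ ha' b hb))
  have hsub : ∀ ζ, ζ ∈ {ξ | ∃ x, (c, x) ∈ r ξ} → r2 ζ ⊆ q → E ζ ⊆ E ξ ∪ E η →
      r ζ ⊆ restr (Sle β) u.1 ∪ (ixm (E ξ ∪ E η)).image fun x => (c, x) := by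
    intro ζ hζ h1 h2 b hb
    rcases (hr ζ b hb).1 with h3 | h3
    · refine Finset.mem_union_left _ (mem_restr.2 ⟨hqu (h1 (hr2sub ζ (mem_restr.2 ⟨hb, h3⟩))), h3⟩)
    · have h4 : b.1 = c := h3
      have h5 : b.2 ∈ fib (r ζ) c := by
        rw [mem_fib, ← h4]
        exact hb
      rw [hEf ζ hζ] at h5
      refine Finset.mem_union_right _ (Finset.mem_image.2 ⟨b.2, ixm_subset h2 h5, ?_⟩)
      rw [← h4]
  refine hno ⟨ξ, η, hne, _, hv, hsub ξ hξ0 hq1 Finset.subset_union_left,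
    hsub η hη0 hq2 Finset.subset_union_right, ?_⟩
  exact (((hgood.comp (fun j : J2 => (Sum.inr j : (Fin k × J) ⊕ J2))).mono hqu).restr
    (c0_mem_Sle β)).mono Finset.subset_union_left

/-- The conditions `p' ξ` can be extended in such a way that for any two compatible ones of the
extensions, all common extensions decide that the pair of tuples is good. -/
theorem kill [Finite J] (hαβ : α < β) (hp' : ∀ ξ, ∀ a ∈ (p' ξ).1, a.1 ∈ Sle α)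
    (hs : ∀ ξ j, (t ξ j).2 = s j) (hd : ∀ ξ η, ξ ≠ η → ∀ i j, t ξ i ≠ t η j) :
    ∃ r : Om1 → PP W, (∀ ξ, r ξ ≤ p' ξ) ∧
      ∀ ξ η, ξ ≠ η → ∀ u, u ≤ r ξ → u ≤ r η → Good u.1 (t ξ) (t η) := by
  choose A0 hA0c hA0s hA0p using fun E : Finset Om1 => exists_predense (P := PP W) pccc
    {r | (∀ ξ ∈ E, r ≤ p' ξ) ∧ ∀ ξ ∈ E, ∀ η ∈ E, ξ ≠ η → Good r.1 (t ξ) (t η)} (by
      rintro r ⟨h1, h2⟩ s hs
      exact ⟨fun ξ hξ => hs.trans (h1 ξ hξ), fun ξ hξ η hη hne => (h2 ξ hξ η hη hne).mono hs⟩)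
  let A : Finset Om1 → Set (PP W) := fun E => rle α '' A0 E
  obtain ⟨c, hcst, hcnm⟩ := Code.exists_code (X := XX) β
    (fun F => {s : Cond XX W | ∃ E, F = ixm E ∧ ∃ a ∈ A E, s = a.1}) (by
      intro F
      by_cases hF : ∃ E, F = ixm E
      · obtain ⟨E, rfl⟩ := hF
        refine (((hA0c E).image (rle α)).image Subtype.val).mono ?_
        rintro _ ⟨E', hE', a, ha, rfl⟩
        have : E = E' := by
          ext ξ
          rw [← mem_ixm, hE', mem_ixm]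
        subst this
        exact ⟨a, ha, rfl⟩
      · refine (Set.countable_empty).mono ?_
        rintro s ⟨E, hE, _⟩
        exact (hF ⟨E, hE⟩).elim)
  have hK : KData α β s p' t A c := by
    refine ⟨hαβ, hs, hd, ?_, ?_, ?_, hcst, fun F s' => by rw [hcnm]; rfl⟩
    · rintro E _ ⟨a, ha, rfl⟩
      obtain ⟨h1, h2⟩ := hA0s E ha
      refine ⟨fun ξ hξ => ?_, fun ξ hξ η hη hne => (h2 ξ hξ η hη hne).restr (c0_mem_Sle α)⟩
      apply PP.le_def.2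
      exact subset_restr (PP.le_def.1 (h1 ξ hξ)) (hp' ξ)
    · intro E r h1 h2
      obtain ⟨a, ha, u, hu1, hu2⟩ := hA0p E r ⟨h1, h2⟩
      refine ⟨rle α a, ⟨a, ha, rfl⟩, u, hu1, ?_⟩
      apply PP.le_def.2
      exact (restr_subset _ _).trans hu2
    · rintro E _ ⟨a, _, rfl⟩ b hb
      exact (mem_restr.1 hb).2
  have hβ : β ≠ ⊥ := (bot_le.trans_lt hαβ).ne'
  have hcV : c ∈ V β := mem_V_of hβ hcst hK.proper hK.scc
  have hcS : c ∈ Sall W := mem_Sall.2 (by rw [hcst]; exact hcV)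
  have hcα : c ∉ (Sle α : Set (Code XX W)) := by
    intro h1
    have h2 := (mem_Sle.1 h1).1
    rw [hcst] at h2
    exact absurd hαβ (not_lt.2 h2)
  have hr : ∀ ξ, ∃ r : PP W, r ≤ p' ξ ∧ (c, ix ξ) ∈ r.1 := by
    intro ξ
    obtain ⟨a, ha, u, hu1, hu2⟩ := hK.hA2 {ξ} (p' ξ) (by
      intro η hη
      rw [Finset.mem_singleton.1 hη]) (by
      intro η hη ζ hζ hne
      rw [Finset.mem_singleton.1 hη, Finset.mem_singleton.1 hζ] at hne
      exact absurd rfl hne)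
    have hv : Valid (Sle α) (restr (Sle α) u.1) :=
      valid_restr (fun _ => proper_Sall) (initial_Sle α) u.2
    have hv2 := valid_top hcα hv (F := ixm {ξ}) ((hK.hnm _ _).2 ⟨_, rfl, a, ha, rfl⟩)
      (subset_restr (PP.le_def.1 hu2) fun b hb => hK.hA3 _ _ ha b hb)
    refine ⟨⟨_, hv2.mono (Set.union_subset (Sle_sub_Sall α) (Set.singleton_subset_iff.2 hcS))⟩,
      ?_, ?_⟩
    · apply PP.le_def.2
      exact (subset_restr (PP.le_def.1 hu1) (hp' ξ)).trans Finset.subset_union_left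
    · exact Finset.mem_union_right _ (Finset.mem_image.2 ⟨ix ξ, mem_ixm.2 (by simp), rfl⟩)
  choose r hr1 hr2 using hr
  refine ⟨r, hr1, fun ξ η hne u hu1 hu2 => ?_⟩
  have h1 : (c, ix ξ) ∈ u.1 := PP.le_def.1 hu1 (hr2 ξ)
  have h2 : (c, ix η) ∈ u.1 := PP.le_def.1 hu2 (hr2 η)
  obtain ⟨_, s', hs', hsu⟩ := u.2 _ h1
  obtain ⟨E, hE, a, ha, rfl⟩ := (hK.hnm _ _).1 hs'
  have h3 : ξ ∈ E := by
    rw [← mem_ixm, ← hE]
    exact mem_fib.2 h1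
  have h4 : η ∈ E := by
    rw [← mem_ixm, ← hE]
    exact mem_fib.2 h2
  exact ((hK.hA1 E a ha).2 ξ h3 η h4 hne).mono hsu

end Pool.Agent.Helper919LB
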