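import Pool.Agent.Helper919_LB.Forced
import Pool.Agent.W684.FM.Ambient

/-!
# The iteration forces the failure of the Lipschitz Baumgartner axiom

The two enumerations are given by the Cohen reals of kind `false` and of kind `true`.
-/

set_option autoImplicit false

namespace Pool.Agent.Helper919LB

open Classical Cardinal Pool.Agent.Helper669.Forcing Pool.Agent.W684.FM

variable {W : Type} [LinearOrder W] [OrderBot W] [WellFoundedLT W]

/-- the name of the sequence of the Cohen reals of kind `k` -/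
def eC (W : Type) [LinearOrder W] [OrderBot W] [WellFoundedLT W] (k : Bool) :
    Om1 → ℕ → Set (PP W) := fun a n => {p | (c0 W, bit (a, k) n true) ∈ p.1}

theorem mem_meets_eC {p : PP W} {k : Bool} {a : Om1} {n : ℕ}
    (h : (c0 W, bit (a, k) n true) ∈ p.1) : p ∈ meets (eC W k a n) := meets_of_mem h

theorem notMem_meets_eC {p : PP W} {k : Bool} {a : Om1} {n : ℕ}
    (h : (c0 W, bit (a, k) n false) ∈ p.1) (q : PP W) (hq : q ≤ p) : q ∉ meets (eC W k a n) := by
  intro h1
  obtain ⟨r, hr, s, hs, hrs⟩ := h1 q le_rfl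
  have h2 : (c0 W, bit (a, k) n true) ∈ r.1 := (PP.le_def.1 hrs) hs
  have h3 : (c0 W, bit (a, k) n false) ∈ r.1 := (PP.le_def.1 (hr.trans hq)) h
  exact not_both r.2 h3 h2

/-- fresh bits may be added -/
theorem exists_bits (q : PP W) {B : Finset XX} (hB : Consis B)
    (hfresh : ∀ a n v w, bit a n v ∈ B → (c0 W, bit a n w) ∉ q.1) :
    ∃ r ≤ q, ∀ x ∈ B, (c0 W, x) ∈ r.1 := by
  have hcon : Consis (fib q.1 (c0 W) ∪ B) := by
    rintro a n ⟨h1, h2⟩
    rw [Finset.mem_union, mem_fib] at h1 h2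
    rcases h1 with h1 | h1
    · rcases h2 with h2 | h2
      · exact not_both q.2 h1 h2
      · exact hfresh _ _ _ _ h2 h1
    · rcases h2 with h2 | h2
      · exact hfresh _ _ _ _ h1 h2
      · exact hB a n ⟨h1, h2⟩
  refine ⟨⟨_, valid_add c0_mem_Sall q.2 hcon⟩, PP.le_def.2 Finset.subset_union_left, ?_⟩
  intro x hx
  exact Finset.mem_union_right _ (mem_ofBits.2 ⟨rfl, hx⟩)

theorem countable_Iic_om1 (c : Om1) : (Set.Iic c).Countable := by
  have h3 := Cardinal.mk_Iio_ord_toType c
  have h4 : (Set.Iio c).Countable := by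
    rw [← Cardinal.le_aleph0_iff_set_countable]
    have : #(Set.Iio c) < Order.succ ℵ₀ := by
      rw [Cardinal.succ_aleph0]
      simpa using h3
    exact Order.lt_succ_iff.1 this
  have : Set.Iic c = insert c (Set.Iio c) := by
    ext x
    simp only [Set.mem_Iic, Set.mem_insert_iff, Set.mem_Iio]
    exact le_iff_eq_or_lt
  rw [this]
  exact h4.insert c

theorem exists_gt_notMem (c : Om1) (F : Finset Om1) : ∃ a, c < a ∧ a ∉ F := by
  by_contra hcon
  push Not at hcon
  apply not_countable_om1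
  refine ((countable_Iic_om1 c).union F.countable_toSet).mono fun a _ => ?_
  rcases le_or_gt a c with h | h
  · exact Or.inl h
  · exact Or.inr (hcon a h)

theorem denseEnumN (k : Bool) (p : PP W) : p ∈ DenseEnumN (eC W k) := by
  refine ⟨fun a b hab => ?_, fun s c => ?_⟩
  · rw [mem_fex]
    intro q _
    obtain ⟨r, hr, hrB⟩ := exists_bits q
      (B := {bit (a, k) (height q.1) true, bit (b, k) (height q.1) false}) (by
        rintro x n ⟨h1, h2⟩
        simp only [Finset.mem_insert, Finset.mem_singleton, bit_inj] at h1 h2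
        rcases h1 with ⟨_, _, h1⟩ | ⟨h1, _⟩
        · exact absurd h1 (by simp)
        · rcases h2 with ⟨h2, _⟩ | ⟨_, _, h2⟩
          · rw [h1] at h2
            exact hab (congrArg Prod.fst h2).symm
          · exact absurd h2 (by simp)) (by
        intro x n v w h1 h2
        have h3 : n = height q.1 := by
          simp only [Finset.mem_insert, Finset.mem_singleton, bit_inj] at h1
          rcases h1 with ⟨_, h1, _⟩ | ⟨_, h1, _⟩ <;> exact h1
        exact absurd (lt_height h2) (by omega))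
    refine ⟨r, hr, height q.1, ?_⟩
    rintro s hs ⟨h1, _⟩
    have h3 : (c0 W, bit (a, k) (height q.1) true) ∈ r.1 := hrB _ (by simp)
    have h4 : (c0 W, bit (b, k) (height q.1) false) ∈ r.1 := hrB _ (by simp)
    obtain ⟨u, hu, h5⟩ := mem_fimp.1 h1 s le_rfl (mem_meets_eC (PP.le_def.1 hs h3))
    exact notMem_meets_eC h4 u (hu.trans hs) h5
  · rw [mem_fex]
    intro q _
    obtain ⟨a, hca, haF⟩ := exists_gt_notMem c ((places q.1).image Prod.fst)
    obtain ⟨r, hr, hrB⟩ := exists_bits q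
      (B := (Finset.range s.length).image fun i => bit (a, k) i (s.getD i false)) (by
        rintro x n ⟨h1, h2⟩
        simp only [Finset.mem_image, bit_inj] at h1 h2
        obtain ⟨i, _, _, h3, h4⟩ := h1
        obtain ⟨j, _, _, h5, h6⟩ := h2
        rw [h3] at h4
        rw [h5, h4] at h6
        exact absurd h6 (by simp)) (by
        intro x n v w h1 h2
        simp only [Finset.mem_image, bit_inj] at h1
        obtain ⟨i, _, h3, _⟩ := h1
        apply haF
        rw [← h3] at h2
        exact Finset.mem_image.2 ⟨_, mem_places h2, rfl⟩)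
    refine ⟨r, hr, a, hca, fun i hi => ?_⟩
    have h1 : (c0 W, bit (a, k) i (s.getD i false)) ∈ r.1 :=
      hrB _ (Finset.mem_image.2 ⟨i, Finset.mem_range.2 hi, rfl⟩)
    cases hv : s.getD i false with
    | true =>
      rw [hv] at h1
      exact ⟨mem_fimp.2 fun u _ _ => ⟨u, le_rfl, rfl⟩,
        mem_fimp.2 fun u hu _ => ⟨u, le_rfl, mem_meets_eC (PP.le_def.1 hu h1)⟩⟩
    | false =>
      rw [hv] at h1
      exact ⟨mem_fimp.2 fun u hu h2 => absurd h2 (notMem_meets_eC h1 u hu),
        mem_fimp.2 fun u _ h2 => absurd h2 (by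
          intro h3
          have h4 : false = true := h3
          exact absurd h4 (by simp))⟩

/-- agreement of Cohen reals, decided by a condition -/
theorem agreeToN_of {r : PP W} {k : Bool} {N : ℕ} {a b : Om1}
    (h : AgrC r.1 N (a, k) (b, k)) : r ∈ AgreeToN N (eC W k a) (eC W k b) := by
  intro i hi
  obtain ⟨v, hv, hv'⟩ := h i hi
  cases v with
  | true =>
    exact ⟨mem_fimp.2 fun q hq _ => ⟨q, le_rfl, mem_meets_eC (PP.le_def.1 hq hv')⟩,
      mem_fimp.2 fun q hq _ => ⟨q, le_rfl, mem_meets_eC (PP.le_def.1 hq hv)⟩⟩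
  | false =>
    exact ⟨mem_fimp.2 fun q hq h4 => absurd h4 (notMem_meets_eC hv q hq),
      mem_fimp.2 fun q hq h4 => absurd h4 (notMem_meets_eC hv' q hq)⟩

theorem not_agree {r : PP W} {k : Bool} {N : ℕ} {a b : Om1} {v : Bool}
    (h1 : (c0 W, bit (a, k) N v) ∈ r.1) (h2 : (c0 W, bit (b, k) N (!v)) ∈ r.1) :
    r ∉ AgreeToN (N + 1) (eC W k a) (eC W k b) := by
  intro h
  obtain ⟨h3, h4⟩ := h N (Nat.lt_succ_self N)
  cases v with
  | true =>
    obtain ⟨u, hu, h5⟩ := mem_fimp.1 h3 r le_rfl (mem_meets_eC h1)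
    exact notMem_meets_eC (by simpa using h2) u hu h5
  | false =>
    obtain ⟨u, hu, h5⟩ := mem_fimp.1 h4 r le_rfl (mem_meets_eC (by simpa using h2))
    exact notMem_meets_eC h1 u hu h5

theorem notLipInjN (q : PP W) (g : Om1 → Om1 → Set (PP W)) :
    q ∉ LipInjN (eC W false) (eC W true) g := by
  rintro ⟨hfun, hinj, hlip⟩
  have hstep : ∀ ξ : Om1, ∃ r ≤ q, ∃ b, r ∈ meets (g ξ b) := fun ξ => IsFun.total hfun ξ
  choose Q hQ b hb using hstep
  have hfib : ∀ β, {ξ | b ξ = β}.Countable := by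
    intro β
    by_contra hunc
    obtain ⟨e⟩ := exists_emb hunc
    obtain ⟨ξ, η, hne, r, hr1, hr2⟩ := PCCC.family pccc (fun ξ => Q (e ξ).1) (by
      intro hc
      exact not_countable_om1 (Set.countable_univ_iff.2 hc))
    have h1 : r ∈ meets (g (e ξ).1 β) := by
      have := down_meets _ _ (hb (e ξ).1) _ hr1
      have h2 : b (e ξ).1 = β := (e ξ).2
      rwa [h2] at this
    have h2 : r ∈ meets (g (e η).1 β) := by
      have := down_meets _ _ (hb (e η).1) _ hr2
      have h2 : b (e η).1 = β := (e η).2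
      rwa [h2] at this
    have h3 := IsInj.eq (down_IsInj _ _ hinj _ (hr1.trans (hQ _))) h1 h2
    exact hne (e.injective (Subtype.ext h3))
  have hbunc : ¬ (Set.range b).Countable := by
    intro hc
    apply not_countable_om1
    have : (Set.univ : Set Om1) ⊆ ⋃ β ∈ Set.range b, {ξ | b ξ = β} := by
      intro ξ _
      rw [Set.mem_iUnion₂]
      exact ⟨b ξ, ⟨ξ, rfl⟩, rfl⟩
    exact (hc.biUnion fun β _ => hfib β).mono this
  obtain ⟨S, _, hS⟩ := Set.SurjOn.exists_bijOn_subset (f := b) (s := Set.univ)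
    (t := Set.range b) (by rintro _ ⟨x, rfl⟩; exact ⟨x, trivial, rfl⟩)
  have hSunc : ¬ S.Countable := fun hc => hbunc (hS.image_eq ▸ hc.image b)
  let t : Om1 → Bool → Pl := fun ξ k => if k = true then (b ξ, true) else (ξ, false)
  have ht1 : ∀ ξ, t ξ true = (b ξ, true) := fun ξ => rfl
  have ht0 : ∀ ξ, t ξ false = (ξ, false) := fun ξ => rfl
  obtain ⟨ξ, hξ, η, hη, hne, r, hr1, hr2, N, hN⟩ := pscc hSunc Bool id Q t
    (fun ξ _ k => by cases k <;> rfl) (by
      intro ξ hξ η hη hne i j hij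
      cases i <;> cases j
      · rw [ht0, ht0] at hij
        exact hne (congrArg Prod.fst hij)
      · rw [ht0, ht1] at hij
        exact absurd (congrArg Prod.snd hij) (by simp)
      · rw [ht0, ht1] at hij
        exact absurd (congrArg Prod.snd hij) (by simp)
      · rw [ht1, ht1] at hij
        exact hne (hS.injOn hξ hη (congrArg Prod.fst hij)))
  obtain ⟨h1, v, hv, hv'⟩ := hN false
  obtain ⟨_, w, hw, hw'⟩ := hN true
  rw [ht0, ht0] at h1
  have e0 : xor v (t ξ false).2 = v := by rw [ht0]; simp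
  have e1 : xor w (t ξ true).2 = !w := by rw [ht1]; simp
  rw [e0, ht0] at hv'
  rw [e1, ht1] at hw'
  rw [ht0] at hv
  rw [ht1] at hw
  have hagr : r ∈ AgreeToN (N + 1) (eC W false ξ) (eC W false η) := by
    apply agreeToN_of
    intro i hi
    rcases Nat.lt_succ_iff_lt_or_eq.1 hi with hi | rfl
    · exact h1 i hi
    · exact ⟨v, hv, hv'⟩
  obtain ⟨r', hr', h2⟩ := mem_fimp.1 (hlip ξ η (b ξ) (b η) (N + 1)) r (hr1.trans (hQ ξ))
    ⟨down_meets _ _ (hb ξ) _ hr1, down_meets _ _ (hb η) _ hr2, hagr⟩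
  exact not_agree (PP.le_def.1 hr' hw) (PP.le_def.1 hr' hw') h2

/-- The iteration forces the failure of the Lipschitz Baumgartner axiom. -/
theorem notBALipN (p : PP W) : p ∈ fnot (BALipN (PP W)) := by
  intro q _ h
  obtain ⟨r, _, h1⟩ := mem_fimp.1 (h (eC W false) (eC W true)) q le_rfl
    ⟨denseEnumN false q, denseEnumN true q⟩
  obtain ⟨s, _, g, hg⟩ := mem_fex.1 h1 r le_rfl
  exact notLipInjN s g hg

end Pool.Agent.Helper919LB
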