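import Pool.Agent.Helper919_LB.Stages
import Pool.Agent.Helper919_LB.Defs
import Pool.Agent.W684.FM.Forced

/-!
# The poset of the iteration
-/

set_option autoImplicit false

namespace Pool.Agent.Helper919LB

open Classical Cardinal Pool.Agent.Helper669.Forcing Pool.Agent.W684.FM

variable {W : Type} [LinearOrder W] [OrderBot W] [WellFoundedLT W]

variable (W) in
/-- the poset of the iteration -/
def PP : Type := {p : Cond XX W // Valid (Sall W) p}

instance : Preorder (PP W) where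
  le p q := q.1 ⊆ p.1
  le_refl p := Finset.Subset.refl _
  le_trans p q r h1 h2 := Finset.Subset.trans h2 h1

theorem PP.le_def {p q : PP W} : p ≤ q ↔ q.1 ⊆ p.1 := Iff.rfl

/-- the strong chain condition of the iteration -/
theorem pscc {ι : Type} {A : Set ι} (hA : ¬ A.Countable) (J : Type) [Finite J] (s : J → Bool)
    (p : ι → PP W) (t : ι → J → Pl) (h2 : ∀ ξ ∈ A, ∀ j, (t ξ j).2 = s j)
    (h3 : ∀ ξ ∈ A, ∀ η ∈ A, ξ ≠ η → ∀ i j, t ξ i ≠ t η j) :
    ∃ ξ ∈ A, ∃ η ∈ A, ξ ≠ η ∧ ∃ r : PP W, r ≤ p ξ ∧ r ≤ p η ∧ Good r.1 (t ξ) (t η) := by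
  obtain ⟨ξ, hξ, η, hη, hne, r, hr, h4, h5, h6⟩ := SCC_Sall.set hA J s (fun ξ => (p ξ).1) t
    (fun ξ _ => (p ξ).2) h2 h3
  exact ⟨ξ, hξ, η, hη, hne, ⟨r, hr⟩, h4, h5, h6⟩

theorem pccc : PCCC (PP W) := by
  intro A hA
  by_contra hunc
  obtain ⟨ξ, hξ, η, hη, hne, r, h1, h2, _⟩ := pscc (W := W) (ι := PP W) hunc Empty
    (fun j => j.elim) id (fun _ j => j.elim) (fun _ _ j => j.elim) (fun _ _ _ _ _ i => i.elim)
  exact hA ξ hξ η hη hne ⟨r, h1, h2⟩

/-- restriction to the coordinates before stage `α` -/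
noncomputable def rlt (α : W) (p : PP W) : PP W :=
  ⟨restr (Slt α) p.1, (valid_restr (fun _ => proper_Sall) (initial_Slt α) p.2).mono
    (Slt_sub_Sall α)⟩

/-- restriction to the coordinates up to stage `α` -/
noncomputable def rle (α : W) (p : PP W) : PP W :=
  ⟨restr (Sle α) p.1, (valid_restr (fun _ => proper_Sall) (initial_Sle α) p.2).mono
    (Sle_sub_Sall α)⟩

/-- all conditions in `N` only have coordinates of stages before `α` -/
def Below (α : W) (N : Set (PP W)) : Prop := ∀ s ∈ N, ∀ a ∈ s.1, a.1.st < α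

theorem Below.memSlt {α : W} {N : Set (PP W)} (h : Below α N) {s : PP W} (hs : s ∈ N)
    {a : Code XX W × XX} (ha : a ∈ s.1) : a.1 ∈ Slt α :=
  mem_Slt.2 ⟨h s hs a ha, mem_Sall.1 (s.2 a ha).1⟩

/-- names referring to the stages before `α` only are decided by the restrictions -/
theorem meets_rlt {α : W} {N : Set (PP W)} (hN : Below α N) {p : PP W} (hp : p ∈ meets N) :
    rlt α p ∈ meets N := by
  intro q hq
  have hq' : restr (Slt α) p.1 ⊆ q.1 := hq
  have hv : Valid (Sall W) (restr (Slt α) q.1 ∪ p.1) :=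
    amalg_one (Slt_sub_Sall α) p.2
      (valid_restr (fun _ => proper_Sall) (initial_Slt α) q.2)
      (subset_restr hq' fun a ha => (mem_restr.1 ha).2)
  obtain ⟨r, hr, s, hs, hrs⟩ := hp ⟨_, hv⟩ (PP.le_def.2 Finset.subset_union_right)
  have hr' : restr (Slt α) q.1 ∪ p.1 ⊆ r.1 := hr
  have hrs' : s.1 ⊆ r.1 := hrs
  have hv2 : Valid (Sall W) (restr (Slt α) r.1 ∪ q.1) := by
    refine amalg_one (Slt_sub_Sall α) q.2
      (valid_restr (fun _ => proper_Sall) (initial_Slt α) r.2) ?_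
    refine subset_restr (Finset.Subset.trans Finset.subset_union_left hr') ?_
    exact fun a ha => (mem_restr.1 ha).2
  refine ⟨⟨_, hv2⟩, PP.le_def.2 Finset.subset_union_right, s, hs, ?_⟩
  apply PP.le_def.2
  exact Finset.Subset.trans (subset_restr hrs' fun a ha => hN.memSlt hs ha)
    Finset.subset_union_left

theorem exists_below [Infinite XX] (hW : Bdd XX W) {ι : Type} (hι : #ι ≤ #XX)
    (N : ι → Set (PP W)) (hN : ∀ i, (N i).Countable) : ∃ α, ∀ β, α ≤ β → ∀ i, Below β (N i) := by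
  have h1 : #(⋃ i, ⋃ s ∈ N i, (fun a : Code XX W × XX => a.1.st) '' (s.1 : Set (Code XX W × XX))) ≤
      #XX := by
    refine (Cardinal.mk_iUnion_le _).trans ?_
    calc #ι * _ ≤ #XX * ℵ₀ := by
          apply mul_le_mul' hι
          apply ciSup_le'
          intro i
          rw [Cardinal.le_aleph0_iff_set_countable]
          exact (hN i).biUnion fun s _ => (s.1.countable_toSet).image _
      _ ≤ #XX := (Cardinal.mul_eq_left (Cardinal.aleph0_le_mk XX) (Cardinal.aleph0_le_mk XX)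
          Cardinal.aleph0_ne_zero).le
  obtain ⟨α, hα⟩ := hW _ h1
  refine ⟨α, fun β hβ i s hs a ha => (hα _ ?_).trans_le hβ⟩
  rw [Set.mem_iUnion]
  refine ⟨i, ?_⟩
  rw [Set.mem_iUnion₂]
  exact ⟨s, hs, a, ha, rfl⟩

/-- one more coordinate on top of a condition -/
theorem valid_top {S : Set (Code XX W)} {c : Code XX W} (hc : c ∉ S) {u : Cond XX W}
    (hu : Valid S u) {F : Finset XX} {s : Cond XX W} (hs : s ∈ c.nm F) (hsu : s ⊆ u) :
    Valid (S ∪ {c}) (u ∪ F.image fun x => (c, x)) := by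
  have hnc : ∀ x, (c, x) ∉ u := fun x hx => hc (hu _ hx).1
  have hmem : ∀ d x, (d, x) ∈ u ∪ F.image (fun x => (c, x)) ↔ (d, x) ∈ u ∨ (d = c ∧ x ∈ F) := by
    intro d x
    simp only [Finset.mem_union, Finset.mem_image, Prod.mk.injEq]
    constructor
    · rintro (h1 | ⟨y, hy, rfl, rfl⟩)
      · exact Or.inl h1
      · exact Or.inr ⟨rfl, hy⟩
    · rintro (h1 | ⟨rfl, h1⟩)
      · exact Or.inl h1
      · exact Or.inr ⟨x, h1, rfl, rfl⟩
  rintro ⟨d, x⟩ hb
  by_cases hdc : d = c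
  · subst hdc
    refine ⟨Or.inr rfl, s, ?_, hsu.trans Finset.subset_union_left⟩
    have h4 : fib (u ∪ F.image fun x => (d, x)) d = F := by
      ext y
      rw [mem_fib, hmem]
      constructor
      · rintro (h5 | ⟨_, h5⟩)
        · exact absurd h5 (hnc y)
        · exact h5
      · exact fun h5 => Or.inr ⟨rfl, h5⟩
    show s ∈ d.nm (fib (u ∪ F.image fun x => (d, x)) d)
    rw [h4]
    exact hs
  · have hd : (d, x) ∈ u := by
      rcases (hmem d x).1 hb with h1 | h1
      · exact h1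
      · exact absurd h1.1 hdc
    obtain ⟨h3, s', hs', hst⟩ := hu _ hd
    refine ⟨Or.inl h3, s', ?_, hst.trans Finset.subset_union_left⟩
    have h4 : fib (u ∪ F.image fun x => (c, x)) d = fib u d := fib_congr fun y => by
      rw [hmem]
      constructor
      · rintro (h5 | ⟨h5, _⟩)
        · exact h5
        · exact absurd h5 hdc
      · exact Or.inl
    show s' ∈ d.nm (fib (u ∪ F.image fun x => (c, x)) d)
    rw [h4]
    exact hs'

theorem initial_top {α : W} {c : Code XX W} (hst : c.st = α) :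
    Initial (Sle α) (Sle α ∪ {c} : Set (Code XX W)) := by
  refine ⟨Set.subset_union_left, ?_⟩
  rintro d hd d' (hd' | hd') hlt
  · exact hd'
  · exfalso
    rw [Set.mem_singleton_iff.1 hd', hst] at hlt
    exact absurd (mem_Sle.1 hd).1 (not_le.2 hlt)

theorem proper_top {α : W} {c : Code XX W} (hp : Proper c) :
    ∀ d ∈ (Sle α ∪ {c} : Set (Code XX W)), Proper d := by
  rintro d (hd | hd)
  · exact proper_Sall (Sle_sub_Sall α hd)
  · rw [Set.mem_singleton_iff.1 hd]
    exact hp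

/-- in a family of conditions without good pair, uncountably many have the top coordinate -/
theorem top_uncountable {α : W} {c : Code XX W} (J : Type) [Finite J]
    (s : J → Bool) (p : Om1 → Cond XX W) (t : Om1 → J → Pl)
    (hp : ∀ ξ, Valid (Sle α ∪ {c}) (p ξ)) (hs : ∀ ξ j, (t ξ j).2 = s j)
    (hd : ∀ ξ η, ξ ≠ η → ∀ i j, t ξ i ≠ t η j)
    (hno : ¬ ∃ ξ η, ξ ≠ η ∧ ∃ r, Valid (Sle α ∪ {c}) r ∧ p ξ ⊆ r ∧ p η ⊆ r ∧
      Good r (t ξ) (t η)) : ¬ {ξ | ∃ x, (c, x) ∈ p ξ}.Countable := by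
  intro h0
  have h0' : ¬ {ξ | ∀ x, (c, x) ∉ p ξ}.Countable := by
    intro h1
    apply not_countable_om1
    refine (h0.union h1).mono fun ξ _ => ?_
    by_cases h2 : ∃ x, (c, x) ∈ p ξ
    · exact Or.inl h2
    · push Not at h2
      exact Or.inr h2
  obtain ⟨ξ, _, η, _, hne, r, hr, h1, h2, h3⟩ := (SCC_Sle α).set h0' J s p t (by
    intro ξ hξ
    refine (hp ξ).of_mem fun a ha => ?_
    rcases (hp ξ a ha).1 with h1 | h1
    · exact h1
    · exact absurd ha (by
        have := hξ a.2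
        rw [← Set.mem_singleton_iff.1 h1] at this
        exact this)) (fun ξ _ => hs ξ) (fun ξ _ η _ => hd ξ η)
  exact hno ⟨ξ, η, hne, r, hr.mono Set.subset_union_left, h1, h2, h3⟩

end Pool.Agent.Helper919LB
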