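import Pool.Agent.Helper919_LB.Cohen

/-!
# The stages of the iteration
-/

set_option autoImplicit false

namespace Pool.Agent.Helper919LB

open Classical Pool.Agent.W684.FM

variable {W : Type} [LinearOrder W] [OrderBot W]

/-- a maximal set of coordinates at stage `α` above `S₀` -/
noncomputable def maxM (α : W) (S₀ : Set (Code XX W)) : Set (Code XX W) :=
  if h : ∃ M, Maximal (fun M => M ∈ Cand' α S₀) M then h.choose else ∅

theorem maxM_spec {α : W} {S₀ : Set (Code XX W)} (h₀ : ∀ c ∈ S₀, c.st < α ∧ Proper c)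
    (hc : SCC S₀) : Maximal (fun M => M ∈ Cand' α S₀) (maxM α S₀) := by
  have h := exists_max' α S₀ h₀ hc
  rw [maxM, dif_pos h]
  exact h.choose_spec

theorem maxM_sub {α : W} {S₀ : Set (Code XX W)} : ∀ c ∈ maxM α S₀, c.st = α ∧ Proper c := by
  intro c hc
  by_cases h : ∃ M, Maximal (fun M => M ∈ Cand' α S₀) M
  · rw [maxM, dif_pos h] at hc
    exact h.choose_spec.1.1 c hc
  · rw [maxM, dif_neg h] at hc
    exact absurd hc (Set.notMem_empty c)

variable [WellFoundedLT W]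

/-- the coordinates at stage `α` -/
noncomputable def V : W → Set (Code XX W) :=
  WellFounded.fix (wellFounded_lt (α := W)) fun α V' =>
    if α = ⊥ then {c0 W} else maxM α (⋃ β : {β // β < α}, V' β.1 β.2)

/-- the coordinates before stage `α` -/
def Slt (α : W) : Set (Code XX W) := ⋃ β : {β : W // β < α}, V β.1

/-- the coordinates up to stage `α` -/
def Sle (α : W) : Set (Code XX W) := Slt α ∪ V α

variable (W) in
/-- all coordinates -/
def Sall : Set (Code XX W) := ⋃ β : W, V β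

theorem V_bot : (V (⊥ : W) : Set (Code XX W)) = {c0 W} := by
  rw [V, WellFounded.fix_eq]
  simp

theorem V_eq {α : W} (hα : α ≠ ⊥) : (V α : Set (Code XX W)) = maxM α (Slt α) := by
  rw [V, WellFounded.fix_eq, if_neg hα]
  rfl

theorem V_sub {α : W} {c : Code XX W} (hc : c ∈ V α) : c.st = α ∧ Proper c := by
  by_cases hα : α = ⊥
  · subst hα
    rw [V_bot] at hc
    rw [Set.mem_singleton_iff.1 hc]
    exact ⟨c0_st, proper_c0⟩
  · rw [V_eq hα] at hc
    exact maxM_sub c hc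

theorem mem_Slt {α : W} {c : Code XX W} : c ∈ Slt α ↔ c.st < α ∧ c ∈ V c.st := by
  rw [Slt, Set.mem_iUnion]
  constructor
  · rintro ⟨⟨β, hβ⟩, h⟩
    have h1 := (V_sub h).1
    simp only at h1 h
    subst h1
    exact ⟨hβ, h⟩
  · rintro ⟨h1, h2⟩
    exact ⟨⟨c.st, h1⟩, h2⟩

theorem mem_Sle {α : W} {c : Code XX W} : c ∈ Sle α ↔ c.st ≤ α ∧ c ∈ V c.st := by
  rw [Sle, Set.mem_union, mem_Slt]
  constructor
  · rintro (⟨h1, h2⟩ | h)
    · exact ⟨h1.le, h2⟩
    · have h1 := (V_sub h).1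
      subst h1
      exact ⟨le_rfl, h⟩
  · rintro ⟨h1, h2⟩
    rcases h1.lt_or_eq with h3 | h3
    · exact Or.inl ⟨h3, h2⟩
    · exact Or.inr (h3 ▸ h2)

theorem mem_Sall {c : Code XX W} : c ∈ Sall W ↔ c ∈ V c.st := by
  rw [Sall, Set.mem_iUnion]
  constructor
  · rintro ⟨β, h⟩
    have h1 := (V_sub h).1
    subst h1
    exact h
  · exact fun h => ⟨_, h⟩

theorem proper_Sall {c : Code XX W} (hc : c ∈ Sall W) : Proper c :=
  (V_sub (mem_Sall.1 hc)).2

theorem Slt_sub_Sall (α : W) : Slt α ⊆ Sall W := fun _ hc =>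
  mem_Sall.2 (mem_Slt.1 hc).2

theorem Sle_sub_Sall (α : W) : Sle α ⊆ Sall W := fun _ hc =>
  mem_Sall.2 (mem_Sle.1 hc).2

theorem initial_Slt (α : W) : Initial (Slt α) (Sall W) :=
  ⟨Slt_sub_Sall α, fun _ hc _ hc' hlt => mem_Slt.2 ⟨hlt.trans (mem_Slt.1 hc).1, mem_Sall.1 hc'⟩⟩

theorem initial_Sle (α : W) : Initial (Sle α) (Sall W) :=
  ⟨Sle_sub_Sall α, fun _ hc _ hc' hlt =>
    mem_Sle.2 ⟨hlt.le.trans (mem_Sle.1 hc).1, mem_Sall.1 hc'⟩⟩

theorem c0_mem_Sle (α : W) : c0 W ∈ Sle α := by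
  rw [mem_Sle, c0_st, V_bot]
  exact ⟨bot_le, rfl⟩

theorem c0_mem_Sall : c0 W ∈ Sall W := Sle_sub_Sall ⊥ (c0_mem_Sle ⊥)

theorem Sle_bot : Sle (⊥ : W) = {c0 W} := by
  ext c
  rw [mem_Sle]
  constructor
  · rintro ⟨h1, h2⟩
    rw [le_bot_iff.1 h1, V_bot] at h2
    exact h2
  · intro h
    rw [Set.mem_singleton_iff.1 h, c0_st, V_bot]
    exact ⟨le_rfl, rfl⟩

/-- chain condition of a part determined by a set of stages closed downwards -/
theorem SCC_stages (S : Set (Code XX W)) (hS : S ⊆ Sall W) (L : Set W) (hLne : L.Nonempty)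
    (hL : ∀ c ∈ S, c.st ∈ L) (hS' : ∀ α ∈ L, Sle α ⊆ S) (h : ∀ α ∈ L, SCC (Sle α)) :
    SCC S := by
  apply SCC_of_parts fun c hc => proper_Sall (hS hc)
  intro r hr
  rcases r.eq_empty_or_nonempty with rfl | hne
  · obtain ⟨α, hα⟩ := hLne
    exact ⟨Sle α, (initial_Sle _).of_subset (hS' _ hα) hS, by simp, h _ hα⟩
  · obtain ⟨c0, hc0, hmax⟩ := Finset.exists_max_image r Code.st hne
    have hα : c0.st ∈ L := hL c0 (hr c0 hc0)
    refine ⟨Sle c0.st, (initial_Sle _).of_subset (hS' _ hα) hS, fun c hc => ?_, h _ hα⟩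
    exact mem_Sle.2 ⟨hmax c hc, mem_Sall.1 (hS (hr c hc))⟩

theorem SCC_Slt_of {α : W} (hα : α ≠ ⊥) (ih : ∀ β < α, SCC (Sle β)) : SCC (Slt α) := by
  apply SCC_stages _ (Slt_sub_Sall α) (Set.Iio α) ⟨⊥, bot_lt_iff_ne_bot.2 hα⟩
  · intro c hc
    exact (mem_Slt.1 hc).1
  · intro β hβ c hc
    exact mem_Slt.2 ⟨(mem_Sle.1 hc).1.trans_lt hβ, (mem_Sle.1 hc).2⟩
  · intro β hβ
    exact ih β hβ

theorem SCC_Sle (α : W) : SCC (Sle α) := by
  induction α using WellFoundedLT.induction with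
  | ind α ih =>
    by_cases hα : α = ⊥
    · subst hα
      rw [Sle_bot]
      exact SCC_c0
    have h1 : SCC (Slt α) := SCC_Slt_of hα ih
    have h2 := maxM_spec (α := α) (S₀ := Slt α) (fun c hc =>
      ⟨(mem_Slt.1 hc).1, (V_sub (mem_Slt.1 hc).2).2⟩) h1
    rw [Sle, V_eq hα]
    exact h2.1.2

theorem SCC_Sall : SCC (Sall W) := by
  apply SCC_stages _ (Set.Subset.refl _) Set.univ ⟨⊥, trivial⟩
  · exact fun _ _ => trivial
  · exact fun β _ => Sle_sub_Sall β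
  · exact fun β _ => SCC_Sle β

/-- maximality -/
theorem mem_V_of {α : W} (hα : α ≠ ⊥) {c : Code XX W} (h1 : c.st = α) (h2 : Proper c)
    (h3 : SCC (Sle α ∪ {c})) : c ∈ V α := by
  have hm := maxM_spec (α := α) (S₀ := Slt α) (fun c hc =>
      ⟨(mem_Slt.1 hc).1, (V_sub (mem_Slt.1 hc).2).2⟩) (SCC_Slt_of hα fun β _ => SCC_Sle β)
  rw [← V_eq hα] at hm
  have h4 : V α ∪ {c} ∈ Cand' α (Slt α : Set (Code XX W)) := by
    refine ⟨?_, ?_⟩
    · rintro d (hd | hd)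
      · exact V_sub hd
      · rw [Set.mem_singleton_iff.1 hd]
        exact ⟨h1, h2⟩
    · rw [← Set.union_assoc]
      exact h3
  exact hm.2 h4 Set.subset_union_left (Or.inr rfl)

end Pool.Agent.Helper919LB
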